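import Pool.Agent.K1H90.TW.Ind
import Pool.Agent.Y760.ZF.FinF

/-!
# Twisted multiple zeta values with large first argument: relations of all exponential heights
-/

set_option autoImplicit false

namespace Pool.Agent.Y760.ZF.TW

open Filter Topology Pool.Agent.TH932.Abs Pool.Agent.TH932.Germs Pool.Agent.TH932.Chi
open Pool.Agent.TH796.AL Pool.Agent.TH883.Zg Pool.Agent.Y760.ZG

/-- the twisted value -/
noncomputable def TX (f : ℕ → ℝ) (k : ℕ) (u : List ℕ) : ℝ :=
  tl (fun m => f m * (hr u m / (m : ℝ) ^ k)) 1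

/-- vectors over the rational germs -/
lemma disj_vec {J T : Type} [Fintype J] [Fintype T] (b : J → T → ℝ) (hli : LinearIndependent ℚ b)
    (p : J → GG) (h : ∀ τ, ∑ j, algebraMap ℝ HR (b j τ) * rho (p j) = 0) : ∀ j, p j = 0 := by
  classical
  choose r hr using fun j => gm_surj (p j)
  have h1 : ∀ τ, ∀ᶠ t in (UU : Filter ℕ), ∑ j, b j τ * ((r j t : ℚ) : ℝ) = 0 := by
    intro τ
    have h2 := h τ
    have h3 : ∀ j, algebraMap ℝ HR (b j τ) * rho (p j) = gr fun t => b j τ * ((r j t : ℚ) : ℝ) := by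
      intro j
      rw [← hr j, rho_gm, cst_eq, gr_mul]
    rw [Finset.sum_congr rfl fun j _ => h3 j, gr_sum, ← gr_zero, gr_eq] at h2
    exact h2
  have h4 : ∀ᶠ t in (UU : Filter ℕ), ∀ j, r j t = 0 := by
    filter_upwards [eventually_all.2 h1] with t ht
    refine Fintype.linearIndependent_iff.1 hli (fun j => r j t) ?_
    funext τ
    rw [Finset.sum_apply, Pi.zero_apply, ← ht τ]
    refine Finset.sum_congr rfl fun j _ => ?_
    rw [Pi.smul_apply, Rat.smul_def, mul_comm]
  intro j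
  rw [← hr j, ← gm_zero, gm_eq]
  filter_upwards [h4] with t ht
  exact ht j

lemma DD_add {L : ℕ → ℝ} {hL : Tendsto L atTop atTop} {F : IntermediateField ℚ ℝ} {x y : HR}
    (hx : DD hL F x) (hy : DD hL F y) : DD hL F (x + y) := by
  have h1 := hx.sub ((DD.of_SF (SF hL F).zero_mem).sub hy)
  rwa [zero_sub, sub_neg_eq_add] at h1

lemma DD_sum {L : ℕ → ℝ} {hL : Tendsto L atTop atTop} {F : IntermediateField ℚ ℝ} {ι : Type*}
    (s : Finset ι) (f : ι → HR) (h : ∀ i ∈ s, DD hL F (f i)) : DD hL F (∑ i ∈ s, f i) :=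
  Finset.sum_induction f (DD hL F) (fun _ _ => DD_add) (DD.of_SF (SF hL F).zero_mem) h

/-- **patterns** -/
theorem mainTP {T A : Type} [Fintype T] [Fintype A] (f : T → ℕ → ℝ) (hf1 : ∀ τ m, |f τ m| ≤ 1)
    (S : Set ℝ) (hSf : S.Finite) (hS : ∀ z ∈ S, IsAlgebraic ℚ z)
    (hfS : ∀ τ m, f τ m ∈ IntermediateField.adjoin ℚ S)
    (gg : A → T → ℕ → ℝ)
    (hcls : ∀ a, {q : ℕ | ∀ τ m, f τ (pr q * m) = gg a τ m}.Infinite)
    (h : T → A → ℝ) (hinv : ∀ τ τ', (∑ a, h τ a * gg a τ' 1 = 1 ∧ τ' = τ) ∨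
      (∑ a, h τ a * gg a τ' 1 = 0 ∧ τ' ≠ τ))
    {l l' g : ℕ} (b : Fin l → T → ℝ) (hb : ∀ j τ, IsAlgebraic ℚ (b j τ))
    (hli : LinearIndependent ℚ b) (β : Fin l' → ℝ) (hβ : ∀ j, IsAlgebraic ℚ (β j))
    (hβi : LinearIndependent ℚ β) (Λ : Finset (Fin g × List (Fin g))) (κ C : ℝ) :
    ∃ B : ℝ, 1 < B ∧ ∃ n0 : ℕ, ∀ n : ℕ, n0 ≤ n → ∀ s : Fin g → ℕ, Function.Injective s →
      (∀ i, 1 ≤ s i ∧ (s i : ℝ) ≤ κ * n) → ∀ (a : Λ → Fin l → ℤ) (a' : Fin l' → ℤ),
      ¬ (a = 0 ∧ a' = 0) →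
      (∀ w j, a w j ≠ 0 → n ≤ s w.1.1) → (∀ w j, |(a w j : ℝ)| ≤ C ^ n) →
      (∀ j, |(a' j : ℝ)| ≤ C ^ n) →
      (B ^ n)⁻¹ < |∑ w : Λ, ∑ j, (a w j : ℝ) * (∑ τ, b j τ * TX (f τ) (s w.1.1) (w.1.2.map s)) +
        ∑ j, (a' j : ℝ) * β j| := by
  classical
  by_contra hcon
  push Not at hcon
  have h1 : ∀ t : ℕ, ∃ n : ℕ, t ≤ n ∧ ∃ s : Fin g → ℕ, Function.Injective s ∧
      (∀ i, 1 ≤ s i ∧ (s i : ℝ) ≤ κ * n) ∧ ∃ (a : Λ → Fin l → ℤ) (a' : Fin l' → ℤ),
      ¬ (a = 0 ∧ a' = 0) ∧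
      (∀ w j, a w j ≠ 0 → n ≤ s w.1.1) ∧ (∀ w j, |(a w j : ℝ)| ≤ C ^ n) ∧
      (∀ j, |(a' j : ℝ)| ≤ C ^ n) ∧
      |∑ w : Λ, ∑ j, (a w j : ℝ) * (∑ τ, b j τ * TX (f τ) (s w.1.1) (w.1.2.map s)) +
        ∑ j, (a' j : ℝ) * β j| ≤ (((t : ℝ) + 2) ^ n)⁻¹ := by
    intro t
    obtain ⟨n, hn, s, h2, h3, a, a', h4, h5, h6, h7, h8⟩ := hcon ((t : ℝ) + 2) (by
      have : (0 : ℝ) ≤ t := Nat.cast_nonneg t
      linarith only [this]) t
    exact ⟨n, hn, s, h2, h3, a, a', fun h9 => (h4 h9.1) h9.2, h5, h6, h7, h8⟩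
  choose n hn s hinj hs a0 a1 ha0 hhd hC hC' hsmall using h1
  obtain ⟨x', hx', hlim'⟩ := exists_lim0 hn fun t i => (hs t i).2
  -- the scale
  obtain ⟨μ, hμ0, hμ1, hμx⟩ : ∃ μ : ℝ, 0 < μ ∧ μ ≤ 1 ∧ ∀ i, 0 < x' i → 2 * μ ≤ x' i := by
    set T : Finset ℝ := insert 2 ((Finset.univ.filter fun i => 0 < x' i).image x') with hT
    have hTne : T.Nonempty := ⟨2, Finset.mem_insert_self _ _⟩
    have hpos : ∀ z ∈ T, 0 < z := by
      intro z hz
      rw [hT, Finset.mem_insert, Finset.mem_image] at hz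
      rcases hz with rfl | ⟨i, hi, rfl⟩
      · norm_num
      · exact (Finset.mem_filter.1 hi).2
    have h2 := hpos _ (T.min'_mem hTne)
    have h3 := T.min'_le 2 (Finset.mem_insert_self _ _)
    refine ⟨T.min' hTne / 2, by linarith only [h2], by linarith only [h3], fun i hi => ?_⟩
    have h4 := T.min'_le (x' i) (Finset.mem_insert_of_mem
      (Finset.mem_image_of_mem _ (Finset.mem_filter.2 ⟨Finset.mem_univ _, hi⟩)))
    linarith only [h4]
  set L : ℕ → ℝ := fun t => μ * (n t : ℝ) with hLdef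
  have hL : Tendsto L atTop atTop :=
    (tendsto_natCast_atTop_atTop.comp (tendsto_atTop_mono hn tendsto_id)).const_mul_atTop hμ0
  set x : Fin g → ℝ := fun i => x' i / μ with hxdef
  have hlim : Lim s x L := by
    intro i ε hε
    filter_upwards [hlim' i (ε * μ) (mul_pos hε hμ0)] with t ht
    rw [hxdef, hLdef]
    simp only
    have h2 : x' i / μ * (μ * (n t : ℝ)) = x' i * n t := by
      field_simp
    rw [h2]
    refine ht.trans (le_of_eq ?_)
    ring
  have hx : ∀ i, x i = 0 ∨ 1 ≤ x i := by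
    intro i
    rcases (hx' i).eq_or_lt with h | h
    · left
      rw [hxdef]
      simp only
      rw [← h, zero_div]
    · right
      rw [hxdef]
      simp only
      rw [le_div_iff₀ hμ0, one_mul]
      have := hμx i h
      linarith only [this, hμ0]
  set B : Fin g → Bool := fun i => decide (1 ≤ x i) with hBdef
  have hB : ∀ i, B i = true ↔ 1 ≤ x i := fun i => by
    rw [hBdef]
    simp only [decide_eq_true_eq]
  have hB' : ∀ i, B i = false → x' i = 0 := by
    intro i hi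
    rcases hx i with h | h
    · rw [hxdef] at h
      simp only at h
      rcases div_eq_zero_iff.1 h with h | h
      · exact h
      · exact absurd h hμ0.ne'
    · rw [(hB i).2 h] at hi
      exact absurd hi (by decide)
  have hLs : ∀ᶠ t in (UU : Filter ℕ), ∀ i, B i = true → L t ≤ (s t i : ℝ) := by
    rw [Filter.eventually_all]
    intro i
    by_cases hi : B i = true
    · filter_upwards [hlim' i μ hμ0] with t ht _
      have h2 : 2 * μ ≤ x' i := by
        rcases (hx' i).eq_or_lt with h | h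
        · exfalso
          have h3 := (hB i).1 hi
          rw [hxdef] at h3
          simp only at h3
          rw [← h, zero_div] at h3
          linarith only [h3]
        · exact hμx i h
      have h3 := (abs_le.1 ht).1
      have h4 : (0 : ℝ) ≤ n t := Nat.cast_nonneg _
      show μ * (n t : ℝ) ≤ s t i
      nlinarith only [h2, h3, h4]
    · exact Eventually.of_forall fun t h => absurd h hi
  have hs1 : ∀ t i, 1 ≤ s t i := fun t i => (hs t i).1
  -- the number field
  set F : IntermediateField ℚ ℝ := IntermediateField.adjoin ℚ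
    (S ∪ (Set.range β ∪ Set.range fun p : Fin l × T => b p.1 p.2)) with hFdef
  have hF : FiniteDimensional ℚ F := by
    have hfin : (S ∪ (Set.range β ∪ Set.range fun p : Fin l × T => b p.1 p.2)).Finite :=
      hSf.union ((Set.finite_range _).union (Set.finite_range _))
    have : Finite ↑(S ∪ (Set.range β ∪ Set.range fun p : Fin l × T => b p.1 p.2)) :=
      hfin.to_subtype
    exact IntermediateField.finiteDimensional_adjoin fun x hx => by
      rcases hx with hx | ⟨j, rfl⟩ | ⟨p, rfl⟩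
      · exact (hS x hx).isIntegral
      · exact (hβ j).isIntegral
      · exact (hb p.1 p.2).isIntegral
  have hβF : ∀ j, β j ∈ F := fun j => IntermediateField.subset_adjoin ℚ _
    (Or.inr (Or.inl ⟨j, rfl⟩))
  have hbF : ∀ j τ, b j τ ∈ F := fun j τ => IntermediateField.subset_adjoin ℚ _
    (Or.inr (Or.inr ⟨(j, τ), rfl⟩))
  have hfF : ∀ τ m, f τ m ∈ F := fun τ m =>
    IntermediateField.adjoin.mono ℚ _ _ Set.subset_union_left (hfS τ m)
  have hcS : ∀ z ∈ F, algebraMap ℝ HR z ∈ SF hL F := fun z hz =>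
    SF_of_NQ (q := 0) (m := 0) (NQ.coe ⟨_, cst_mem_KA hL F ⟨z, hz⟩⟩)
  -- the words whose first letter is large
  set Λ' : Type := {w : Λ // B w.1.1 = true} with hΛ'
  have hout : ∀ᶠ t in (UU : Filter ℕ), ∀ w : Λ, ¬ B w.1.1 = true → ∀ j, a0 t w j = 0 := by
    rw [Filter.eventually_all]
    intro w
    by_cases hw : B w.1.1 = true
    · exact Eventually.of_forall fun t h => absurd hw h
    · have hi : B w.1.1 = false := by
        cases h : B w.1.1 with
        | true => exact absurd h hw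
        | false => rfl
      filter_upwards [hlim' w.1.1 (1 / 2) (by norm_num), ev_of_atTop (eventually_ge_atTop 1)]
        with t ht ht1 _ j
      by_contra hne
      have h3 := hhd t w j hne
      rw [hB' _ hi, zero_mul, sub_zero] at ht
      have h4 := (le_abs_self _).trans ht
      have h5 : (n t : ℝ) ≤ s t w.1.1 := by exact_mod_cast h3
      have h6 := hn t
      have h7 : (1 : ℝ) ≤ n t := by exact_mod_cast (by omega : 1 ≤ n t)
      linarith only [h4, h5, h7]
  set y : (Λ' × Fin l) ⊕ Fin l' → HR := Sum.elim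
    (fun p => ∑ τ, algebraMap ℝ HR (b p.2 τ) * XT s (f τ) p.1.1.1.1 p.1.1.1.2)
    (fun j => algebraMap ℝ HR (β j)) with hy
  set a : (Λ' × Fin l) ⊕ Fin l' → GG := Sum.elim
    (fun p => gm fun t => (a0 t p.1.1 p.2 : ℚ)) (fun j => gm fun t => (a1 t j : ℚ)) with ha
  have hbound : ∀ t, C ^ (n t) ≤ Real.exp (Real.log (|C| + 1) / μ * L t) := by
    intro t
    have h2 : 0 ≤ |C| := abs_nonneg C
    have h3 : Real.log (|C| + 1) / μ * L t = (n t : ℝ) * Real.log (|C| + 1) := by
      rw [hLdef]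
      field_simp
    rw [h3, Real.exp_nat_mul, Real.exp_log (by linarith only [h2])]
    refine (le_abs_self _).trans ?_
    rw [abs_pow]
    exact pow_le_pow_left₀ h2 (by linarith only []) _
  have hIG : ∀ p, IG L (Real.log (|C| + 1) / μ) (a p) := by
    rintro (p | j)
    · exact ⟨fun t => a0 t p.1.1 p.2, rfl, Eventually.of_forall fun t =>
        (hC t p.1.1 p.2).trans (hbound t)⟩
    · exact ⟨fun t => a1 t j, rfl, Eventually.of_forall fun t => (hC' t j).trans (hbound t)⟩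
  have hnul : Nul L (∑ p, rho (a p) * y p) := by
    have e1 : ∑ p, rho (a p) * y p = gr fun t =>
        ∑ w : Λ, ∑ j, (a0 t w j : ℝ) * (∑ τ, b j τ * TX (f τ) (s t w.1.1) (w.1.2.map (s t))) +
        ∑ j, (a1 t j : ℝ) * β j := by
      have e2 : ∀ p : Λ' × Fin l, rho (a (Sum.inl p)) * y (Sum.inl p) = gr fun t =>
          (a0 t p.1.1 p.2 : ℝ) * (∑ τ, b p.2 τ * TX (f τ) (s t p.1.1.1.1)
            (p.1.1.1.2.map (s t))) := by
        intro p
        rw [ha, hy]
        simp only [Sum.elim_inl]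
        have e3 : ∀ τ, algebraMap ℝ HR (b p.2 τ) * XT s (f τ) p.1.1.1.1 p.1.1.1.2 =
            gr fun t => b p.2 τ * TX (f τ) (s t p.1.1.1.1) (p.1.1.1.2.map (s t)) := by
          intro τ
          unfold XT
          rw [cst_eq, gr_mul]
          rfl
        rw [Finset.sum_congr rfl fun τ _ => e3 τ, gr_sum, rho_gm, gr_mul]
        congr 1
      have e3 : ∀ j : Fin l', rho (a (Sum.inr j)) * y (Sum.inr j) = gr fun t =>
          (a1 t j : ℝ) * β j := by
        intro j
        rw [ha, hy]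
        simp only [Sum.elim_inr]
        rw [rho_gm, cst_eq, gr_mul]
        congr 1
      rw [Fintype.sum_sum_type, Finset.sum_congr rfl fun p _ => e2 p,
        Finset.sum_congr rfl fun j _ => e3 j, gr_sum, gr_sum, gr_add, gr_eq]
      filter_upwards [hout] with t ht
      congr 1
      rw [Fintype.sum_prod_type]
      show ∑ w : {w : Λ // B w.1.1 = true}, ∑ j, (a0 t w.1 j : ℝ) *
        (∑ τ, b j τ * TX (f τ) (s t w.1.1.1) (w.1.1.2.map (s t))) = _
      rw [← Finset.sum_filter_add_sum_filter_not Finset.univ (fun w : Λ => B w.1.1 = true),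
        Finset.sum_eq_zero (s := Finset.univ.filter fun w : Λ => ¬ B w.1.1 = true) (fun w hw =>
          Finset.sum_eq_zero fun j _ => by
            rw [ht w (Finset.mem_filter.1 hw).2 j, Int.cast_zero, zero_mul]), add_zero]
      exact (Finset.sum_subtype (Finset.univ.filter fun w : Λ => B w.1.1 = true) (fun w => by
        rw [Finset.mem_filter]
        exact ⟨fun h => h.2, fun h => ⟨Finset.mem_univ _, h⟩⟩)
        (fun w => ∑ j, (a0 t w j : ℝ) *
          (∑ τ, b j τ * TX (f τ) (s t w.1.1) (w.1.2.map (s t))))).symm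
    rw [e1]
    intro T
    rw [mem_SR]
    intro ε hε
    have h2 : ∀ᶠ t : ℕ in (UU : Filter ℕ), Real.exp |T| ≤ (t : ℝ) :=
      ev_of_atTop (tendsto_natCast_atTop_atTop.eventually_ge_atTop _)
    filter_upwards [h2] with t h3
    refine (hsmall t).trans ?_
    have hn0 : (0 : ℝ) ≤ n t := Nat.cast_nonneg _
    have h6 : Real.exp (|T| * (n t : ℝ)) ≤ ((t : ℝ) + 2) ^ (n t) := by
      rw [mul_comm, Real.exp_nat_mul]
      exact pow_le_pow_left₀ (Real.exp_pos _).le (by linarith only [h3]) _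
    calc (((t : ℝ) + 2) ^ (n t))⁻¹ ≤ (Real.exp (|T| * (n t : ℝ)))⁻¹ :=
          inv_anti₀ (Real.exp_pos _) h6
      _ = Real.exp (-(|T| * (n t : ℝ))) := (Real.exp_neg _).symm
      _ ≤ Real.exp (-(T - ε) * L t) := by
          apply Real.exp_le_exp.2
          rw [hLdef]
          simp only
          have h7 : T * (μ * (n t : ℝ)) ≤ |T| * (n t : ℝ) := by
            have h8 := le_abs_self T
            have h9 := abs_nonneg T
            have h10 : T * (μ * (n t : ℝ)) ≤ |T| * (μ * (n t : ℝ)) :=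
              mul_le_mul_of_nonneg_right h8 (by positivity)
            have h11 : μ * (n t : ℝ) ≤ n t := mul_le_of_le_one_left hn0 hμ1
            exact h10.trans (mul_le_mul_of_nonneg_left h11 h9)
          have h8 : 0 ≤ ε * (μ * (n t : ℝ)) := by positivity
          linarith only [h7, h8]
  have hDD : ∀ p, DD hL F (y p) := by
    rintro (p | j)
    · rw [hy]
      simp only [Sum.elim_inl]
      exact DD_sum _ _ fun τ _ => (DD.of_SF (hcS _ (hbF _ _))).mul
        (DD_XT hL hLs hlim (hf1 τ) (hfF τ) p.1.2 _)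
    · rw [hy]
      simp only [Sum.elim_inr]
      exact DD.of_SF (hcS _ (hβF _))
  have hind : ∀ p : (Λ' × Fin l) ⊕ Fin l' → GG, (∀ j, rho (p j) ∈ SF hL F) →
      Nul L (∑ j, rho (p j) * y j) → ∀ j, p j = 0 := by
    intro p hp hpn
    have h2 : Nul L (∑ v : Λ' × T, (∑ j, algebraMap ℝ HR (b j v.2) * rho (p (Sum.inl (v.1, j)))) *
        XT s (f v.2) v.1.1.1.1 v.1.1.1.2 + ∑ j, algebraMap ℝ HR (β j) * rho (p (Sum.inr j))) := by
      refine (congrArg (Nul L) ?_).mp hpn
      rw [Fintype.sum_sum_type]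
      congr 1
      · rw [Fintype.sum_prod_type, Fintype.sum_prod_type]
        refine Finset.sum_congr rfl fun w _ => ?_
        rw [hy]
        simp only [Sum.elim_inl, Finset.mul_sum, Finset.sum_mul]
        rw [Finset.sum_comm]
        refine Finset.sum_congr rfl fun τ _ => Finset.sum_congr rfl fun j _ => ?_
        ring
      · refine Finset.sum_congr rfl fun j _ => ?_
        rw [hy]
        simp only [Sum.elim_inr]
        ring
    obtain ⟨h3, h4⟩ := indT hF hlim hx hB hs1 hLs hinj f hf1 hfF gg hcls h hinv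
      (W := Λ' × T) (fun v => v.1.1.1.1) (fun v => v.1.2) (fun v => v.1.1.1.2) (fun v => v.2)
      (fun v v' hvv => by
        simp only [Prod.mk.injEq] at hvv
        refine Prod.ext (Subtype.ext (Subtype.ext (Prod.ext hvv.1 hvv.2.1))) hvv.2.2)
      (fun v => ∑ j, algebraMap ℝ HR (b j v.2) * rho (p (Sum.inl (v.1, j))))
      (fun v => (SF hL F).sum_mem fun j _ => (SF hL F).mul_mem (hcS _ (hbF _ _)) (hp _))
      (∑ j, algebraMap ℝ HR (β j) * rho (p (Sum.inr j)))
      ((SF hL F).sum_mem fun j _ => (SF hL F).mul_mem (hcS _ (hβF _)) (hp _)) h2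
    rintro (⟨w, j⟩ | j)
    · exact disj_vec b hli (fun j => p (Sum.inl (w, j))) (fun τ => h3 (w, τ)) j
    · exact disj_thm (Fin l') inferInstance β hβi (fun j => p (Sum.inr j)) h4 j
  have hmain := gen hF (Fintype.card ((Λ' × Fin l) ⊕ Fin l')) ((Λ' × Fin l) ⊕ Fin l') rfl y hDD
    hind _ a hIG hnul
  have h2 : ∀ᶠ t in (UU : Filter ℕ), ∀ p : Λ' × Fin l, (a0 t p.1.1 p.2 : ℚ) = 0 := by
    rw [Filter.eventually_all]
    intro p
    have h3 := hmain (Sum.inl p)
    simp only [ha, Sum.elim_inl] at h3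
    rw [← gm_zero, gm_eq] at h3
    exact h3
  have h2' : ∀ᶠ t in (UU : Filter ℕ), ∀ j : Fin l', (a1 t j : ℚ) = 0 := by
    rw [Filter.eventually_all]
    intro j
    have h3 := hmain (Sum.inr j)
    simp only [ha, Sum.elim_inr] at h3
    rw [← gm_zero, gm_eq] at h3
    exact h3
  obtain ⟨t, ht, ht', ht''⟩ := (h2.and (hout.and h2')).exists
  refine ha0 t ⟨?_, ?_⟩
  · funext w j
    by_cases hw : B w.1.1 = true
    · exact_mod_cast ht (⟨w, hw⟩, j)
    · exact ht' w hw j
  · funext j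
    exact_mod_cast ht'' j

end Pool.Agent.Y760.ZF.TW
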