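import Pool.Agent.K1H90.TW.Fin
import Pool.Agent.Y760.ZF.FinV

/-!
# Bounded numbers of twisted multiple zeta values with first argument at least `n`
-/

set_option autoImplicit false

namespace Pool.Agent.Y760.ZF.TW

open Filter Topology Pool.Agent.Y760.ZG Pool.Agent.TH932.Chi Pool.Agent.TH932.Abs
open Pool.Agent.TH796.AL

/-- the first argument is at least `n`, all arguments are positive and at most `κ n` -/
def Ad (n r : ℕ) (κ : ℝ) (w : ℕ × List ℕ) : Prop :=
  w.2.length ≤ r ∧ n ≤ w.1 ∧ (w.1 : ℝ) ≤ κ * n ∧ ∀ m ∈ w.2, 1 ≤ m ∧ (m : ℝ) ≤ κ * n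

/-- **bounded numbers of twisted multiple zeta values** -/
theorem mainTW {T A : Type} [Fintype T] [Fintype A] (f : T → ℕ → ℝ) (hf1 : ∀ τ m, |f τ m| ≤ 1)
    (S : Set ℝ) (hSf : S.Finite) (hS : ∀ z ∈ S, IsAlgebraic ℚ z)
    (hfS : ∀ τ m, f τ m ∈ IntermediateField.adjoin ℚ S)
    (gg : A → T → ℕ → ℝ)
    (hcls : ∀ a, {q : ℕ | ∀ τ m, f τ (pr q * m) = gg a τ m}.Infinite)
    (h : T → A → ℝ) (hinv : ∀ τ τ', (∑ a, h τ a * gg a τ' 1 = 1 ∧ τ' = τ) ∨
      (∑ a, h τ a * gg a τ' 1 = 0 ∧ τ' ≠ τ))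
    {l l' : ℕ} (b : Fin l → T → ℝ) (hb : ∀ j τ, IsAlgebraic ℚ (b j τ))
    (hli : LinearIndependent ℚ b) (β : Fin l' → ℝ) (hβ : ∀ j, IsAlgebraic ℚ (β j))
    (hβi : LinearIndependent ℚ β) (N r : ℕ) (κ C : ℝ) :
    ∃ B : ℝ, 1 < B ∧ ∃ n0 : ℕ, ∀ n : ℕ, n0 ≤ n → ∀ W : Finset (ℕ × List ℕ), W.card ≤ N →
      (∀ w ∈ W, Ad n r κ w) → ∀ (a : ℕ × List ℕ → Fin l → ℤ) (a' : Fin l' → ℤ),
      ((∃ w ∈ W, ∃ j, a w j ≠ 0) ∨ ∃ j, a' j ≠ 0) → (∀ w ∈ W, ∀ j, |(a w j : ℝ)| ≤ C ^ n) →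
      (∀ j, |(a' j : ℝ)| ≤ C ^ n) →
      (B ^ n)⁻¹ < |∑ w ∈ W, ∑ j, (a w j : ℝ) * (∑ τ, b j τ * TX (f τ) w.1 w.2) +
        ∑ j, (a' j : ℝ) * β j| := by
  classical
  have hwords : ∀ g, ∃ Λ : Finset (Fin g × List (Fin g)), ∀ w, w ∈ Λ ↔ w.2.length ≤ r := by
    intro g
    obtain ⟨Λ, hΛ⟩ := exists_words r g
    refine ⟨Finset.univ ×ˢ Λ, fun w => ?_⟩
    rw [Finset.mem_product, hΛ]
    exact ⟨fun h => h.2, fun h => ⟨Finset.mem_univ _, h⟩⟩
  choose Λ hΛ using hwords
  choose B hB n0 hmain using fun g => mainTP (g := g) f hf1 S hSf hS hfS gg hcls h hinv b hb hli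
    β hβ hβi (Λ g) κ C
  set G : ℕ := N * (r + 1) with hG
  refine ⟨∑ g ∈ Finset.range (G + 1), B g, ?_, ∑ g ∈ Finset.range (G + 1), n0 g + 1, ?_⟩
  · refine (hB 0).trans_le ?_
    exact Finset.single_le_sum (f := B) (fun g _ => by linarith only [hB g])
      (Finset.mem_range.2 (by omega))
  intro n hn W hWN hW a a' hne hC hC'
  set LL : Finset ℕ := W.biUnion fun w => insert w.1 w.2.toFinset with hLL
  have hcard : LL.card ≤ G := by
    calc LL.card ≤ ∑ w ∈ W, (insert w.1 w.2.toFinset).card := Finset.card_biUnion_le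
      _ ≤ ∑ _w ∈ W, (r + 1) := Finset.sum_le_sum fun w hw =>
          (Finset.card_insert_le _ _).trans (Nat.succ_le_succ
            ((List.toFinset_card_le w.2).trans (hW w hw).1))
      _ = W.card * (r + 1) := by rw [Finset.sum_const, smul_eq_mul]
      _ ≤ G := Nat.mul_le_mul_right _ hWN
  set g : ℕ := LL.card with hg
  set s : Fin g ↪o ℕ := LL.orderEmbOfFin rfl with hs
  have hsLL : ∀ i, s i ∈ LL := fun i => LL.orderEmbOfFin_mem rfl i
  have hsurj : ∀ m ∈ LL, ∃ i, s i = m := by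
    intro m hm
    have h1 := LL.range_orderEmbOfFin rfl
    have h2 : m ∈ Set.range (LL.orderEmbOfFin rfl) := by
      rw [h1]
      exact hm
    exact h2
  have hgr : g ∈ Finset.range (G + 1) := Finset.mem_range.2 (by omega)
  have hn0 : n0 g ≤ n := by
    have h1 : n0 g ≤ ∑ g ∈ Finset.range (G + 1), n0 g :=
      Finset.single_le_sum (f := n0) (fun _ _ => Nat.zero_le _) hgr
    omega
  have hmem1 : ∀ w ∈ W, w.1 ∈ LL := by
    intro w hw
    rw [hLL, Finset.mem_biUnion]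
    exact ⟨w, hw, Finset.mem_insert_self _ _⟩
  have hmem : ∀ w ∈ W, ∀ m ∈ w.2, m ∈ LL := by
    intro w hw m hm
    rw [hLL, Finset.mem_biUnion]
    exact ⟨w, hw, Finset.mem_insert_of_mem (List.mem_toFinset.2 hm)⟩
  -- coding
  have hcode : ∀ w : ℕ × List ℕ, w ∈ W → ∃ w' : Fin g × List (Fin g),
      (s w'.1, w'.2.map s) = w := by
    intro w hw
    refine ⟨((hsurj w.1 (hmem1 w hw)).choose,
      w.2.attach.map fun m => (hsurj m.1 (hmem w hw m.1 m.2)).choose), Prod.ext ?_ ?_⟩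
    · exact (hsurj w.1 (hmem1 w hw)).choose_spec
    · simp only
      rw [List.map_map]
      conv_rhs => rw [← List.attach_map_subtype_val w.2]
      refine List.map_congr_left fun m _ => ?_
      exact (hsurj m.1 (hmem w hw m.1 m.2)).choose_spec
  choose enc henc using hcode
  have hencΛ : ∀ w (hw : w ∈ W), enc w hw ∈ Λ g := by
    intro w hw
    rw [hΛ]
    have h1 := congrArg (fun z : ℕ × List ℕ => z.2.length) (henc w hw)
    simp only [List.length_map] at h1
    rw [h1]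
    exact (hW w hw).1
  have hinjm : Function.Injective (fun w' : Fin g × List (Fin g) => (s w'.1, w'.2.map s)) := by
    intro w w' hww
    simp only [Prod.mk.injEq] at hww
    exact Prod.ext (s.injective hww.1) (List.map_injective_iff.2 s.injective hww.2)
  set a0 : Λ g → Fin l → ℤ := fun w' j =>
    if (s w'.1.1, w'.1.2.map s) ∈ W then a (s w'.1.1, w'.1.2.map s) j else 0 with ha0
  have ha0W : ∀ w (hw : w ∈ W) j, a0 ⟨enc w hw, hencΛ w hw⟩ j = a w j := by
    intro w hw j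
    rw [ha0]
    simp only
    rw [henc w hw, if_pos hw]
  have hC0 : 0 ≤ C ^ n := by
    rcases hne with ⟨w1, hw1, j1, hj1⟩ | ⟨j1, hj1⟩
    · exact (abs_nonneg _).trans (hC w1 hw1 j1)
    · exact (abs_nonneg _).trans (hC' j1)
  have h1 := hmain g n hn0 s s.injective (fun i => by
      have h2 := hsLL i
      rw [hLL, Finset.mem_biUnion] at h2
      obtain ⟨w, hw, h3⟩ := h2
      obtain ⟨h4, h5, h6, h7⟩ := hW w hw
      rw [Finset.mem_insert] at h3
      rcases h3 with h3 | h3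
      · rw [h3]
        exact ⟨by omega, h6⟩
      · exact h7 _ (List.mem_toFinset.1 h3)) a0 a' (by
      rintro ⟨h2, h3⟩
      rcases hne with ⟨w1, hw1, j1, hj1⟩ | ⟨j1, hj1⟩
      · apply hj1
        rw [← ha0W w1 hw1 j1, h2]
        rfl
      · apply hj1
        rw [h3]
        rfl) (fun w' j hne => by
      rw [ha0] at hne
      simp only at hne
      split_ifs at hne with h2
      · exact (hW _ h2).2.1
      · exact absurd rfl hne) (fun w' j => by
      rw [ha0]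
      simp only
      split_ifs with h2
      · exact hC _ h2 j
      · rw [Int.cast_zero, abs_zero]
        exact hC0) hC'
  have h2 : ∑ w' : Λ g, ∑ j, (a0 w' j : ℝ) *
        (∑ τ, b j τ * TX (f τ) (s w'.1.1) (w'.1.2.map s)) =
      ∑ w ∈ W, ∑ j, (a w j : ℝ) * (∑ τ, b j τ * TX (f τ) w.1 w.2) := by
    have h3 : ∀ w' : Λ g, ¬ (s w'.1.1, w'.1.2.map s) ∈ W →
        ∑ j, (a0 w' j : ℝ) * (∑ τ, b j τ * TX (f τ) (s w'.1.1) (w'.1.2.map s)) = 0 := by
      intro w' hw'
      refine Finset.sum_eq_zero fun j _ => ?_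
      rw [ha0]
      simp only
      rw [if_neg hw', Int.cast_zero, zero_mul]
    rw [← Finset.sum_filter_add_sum_filter_not Finset.univ
      (fun w' : Λ g => (s w'.1.1, w'.1.2.map s) ∈ W),
      Finset.sum_eq_zero (s := Finset.univ.filter fun w' : Λ g =>
        ¬ (s w'.1.1, w'.1.2.map s) ∈ W)
        (fun w' hw' => h3 w' (Finset.mem_filter.1 hw').2), add_zero]
    refine Finset.sum_bij' (fun w' _ => (s w'.1.1, w'.1.2.map s))
      (fun w hw => (⟨enc w hw, hencΛ w hw⟩ : Λ g)) ?_ ?_ ?_ ?_ ?_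
    · intro w' hw'
      exact (Finset.mem_filter.1 hw').2
    · intro w hw
      rw [Finset.mem_filter]
      refine ⟨Finset.mem_univ _, ?_⟩
      simp only
      rw [henc w hw]
      exact hw
    · intro w' hw'
      refine Subtype.ext (hinjm ?_)
      exact henc _ (Finset.mem_filter.1 hw').2
    · intro w hw
      exact henc w hw
    · intro w' hw'
      refine Finset.sum_congr rfl fun j _ => ?_
      rw [ha0]
      simp only
      rw [if_pos (Finset.mem_filter.1 hw').2]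
  rw [h2] at h1
  refine lt_of_le_of_lt ?_ h1
  have hBg : B g ≤ ∑ g ∈ Finset.range (G + 1), B g :=
    Finset.single_le_sum (f := B) (fun g _ => by linarith only [hB g]) hgr
  have hBg0 : 0 < B g := by linarith only [hB g]
  gcongr

end Pool.Agent.Y760.ZF.TW
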