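import Pool.Agent.K1H90.TW.Mz
import Pool.Agent.Y760.ZF.Hd

/-!
# The heads of a small combination of twisted multiple zeta values
-/

set_option autoImplicit false

namespace Pool.Agent.Y760.ZF.TW

open Filter Topology Pool.Agent.TH932.Abs Pool.Agent.TH932.Germs Pool.Agent.TH932.Chi
open Pool.Agent.TH796.AL Pool.Agent.Y760.ZG

variable {I : Type} [Fintype I] [DecidableEq I]

section

variable {L : ℕ → ℝ} {hL : Tendsto L atTop atTop} {s : ℕ → I → ℕ} {x : I → ℝ}

/-- **the system has no kernel**, for arbitrary primes -/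
lemma ker_trivT (hs1 : ∀ n i, 1 ≤ s n i) (hinj : ∀ n, Function.Injective (s n)) (y : ℝ)
    (Λ : Finset (List I)) : ∃ R : ℕ, ∀ (Q : Fin (R + 1) → ℕ), Function.Injective Q →
      ∀ (v : {i // x i = y} × Λ → GG),
      (∀ k : Fin (R + 1), ∑ j, (ug s (Q k) j.1.1 / ch1 hL (Q k) (-y)) *
        Gq s j.2.1 (pr (Q k)) * v j = 0) → ∀ j, v j = 0 := by
  classical
  obtain ⟨R, hR⟩ := zek {i // x i = y} Λ.card (Λ.sup List.length)
  refine ⟨R, fun Q hQ v hv j0 => ?_⟩
  by_contra hj0
  choose vr hvr using fun j => gm_surj (v j)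
  choose a ha using fun q => gm_surj (ch1 hL q (-y))
  have h1 : ∀ k : Fin (R + 1), ∀ᶠ n in (UU : Filter ℕ), ∑ j : {i // x i = y} × Λ,
      (((pr (Q k) : ℝ) ^ s n j.1.1)⁻¹ * ((a (Q k) n : ℚ) : ℝ)⁻¹) *
        hr (aw s n j.2.1) (pr (Q k)) * ((vr j n : ℚ) : ℝ) = 0 := by
    intro k
    have h2 := congrArg rho (hv k)
    rw [map_zero, map_sum, ← gr_zero] at h2
    have h3 : ∀ j : {i // x i = y} × Λ, rho ((ug s (Q k) j.1.1 / ch1 hL (Q k) (-y)) *
        Gq s j.2.1 (pr (Q k)) * v j) = gr fun n =>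
        (((pr (Q k) : ℝ) ^ s n j.1.1)⁻¹ * ((a (Q k) n : ℚ) : ℝ)⁻¹) *
        hr (aw s n j.2.1) (pr (Q k)) * ((vr j n : ℚ) : ℝ) := by
      intro j
      rw [map_mul, map_mul, rho_Gq, ← hvr j, ← ha (Q k), map_div₀, div_eq_mul_inv]
      unfold ug
      rw [rho_gm, rho_gm, rho_gm, gr_inv, gr_mul, gr_mul, gr_mul]
      congr 1
      funext n
      push_cast
      rfl
    rw [Finset.sum_congr rfl fun j _ => h3 j, gr_sum, gr_eq] at h2
    exact h2
  have h2 : ∀ k : Fin (R + 1), ∀ᶠ n in (UU : Filter ℕ), a (Q k) n ≠ 0 := by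
    intro k
    have h3 := ch1_ne hL (Q k) (-y)
    rw [← ha] at h3
    exact gm_ne_zero.1 h3
  have h3 : ∀ᶠ n in (UU : Filter ℕ), vr j0 n ≠ 0 := by
    rw [← hvr j0] at hj0
    exact gm_ne_zero.1 hj0
  obtain ⟨n, hn1, hn2, hn3⟩ := ((eventually_all.2 h1).and ((eventually_all.2 h2).and h3)).exists
  set κ : {i // x i = y} → List ℕ+ → ℝ := fun i γ =>
    ∑ β : Λ, if cvt n hs1 β.1 = γ then ((vr (i, β) n : ℚ) : ℝ) else 0 with hκ
  have h4 := hR (fun i => s n i.1) (fun i j hij => Subtype.ext (hinj n hij))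
    (Λ.image (cvt n hs1)) Finset.card_image_le (fun γ hγ => by
      obtain ⟨β, hβ, rfl⟩ := Finset.mem_image.1 hγ
      rw [cvt_length]
      exact Finset.le_sup (f := List.length) hβ) κ
    ⟨j0.1, cvt n hs1 j0.2.1, Finset.mem_image_of_mem _ j0.2.2, by
      rw [hκ]
      simp only
      rw [Finset.sum_eq_single j0.2]
      · rw [if_pos rfl]
        exact_mod_cast hn3
      · intro β _ hβ
        rw [if_neg]
        intro h
        exact hβ (Subtype.ext (cvt_inj n hs1 hinj h))
      · intro h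
        exact absurd (Finset.mem_univ _) h⟩
    (Finset.univ.image fun k : Fin (R + 1) => pr (Q k)) (fun p hp => by
      obtain ⟨k, _, rfl⟩ := Finset.mem_image.1 hp
      refine ⟨(pr_prime _).pos, ?_⟩
      have h5 := hn1 k
      have h6 : ((a (Q k) n : ℚ) : ℝ) ≠ 0 := by exact_mod_cast hn2 k
      have h7 : ∑ j : {i // x i = y} × Λ,
          (((pr (Q k) : ℝ) ^ s n j.1.1)⁻¹ * ((a (Q k) n : ℚ) : ℝ)⁻¹) *
          hr (aw s n j.2.1) (pr (Q k)) * ((vr j n : ℚ) : ℝ) =
          ((a (Q k) n : ℚ) : ℝ)⁻¹ * ∑ i : {i // x i = y}, ((pr (Q k) : ℝ) ^ s n i.1)⁻¹ *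
            ∑ γ ∈ Λ.image (cvt n hs1), κ i γ * hr (cl γ) (pr (Q k)) := by
        rw [Fintype.sum_prod_type, Finset.mul_sum]
        refine Finset.sum_congr rfl fun i _ => ?_
        have h8 : ∑ γ ∈ Λ.image (cvt n hs1), κ i γ * hr (cl γ) (pr (Q k)) =
            ∑ β : Λ, ((vr (i, β) n : ℚ) : ℝ) * hr (aw s n β.1) (pr (Q k)) := by
          rw [hκ]
          simp only [Finset.sum_mul]
          rw [Finset.sum_comm]
          refine Finset.sum_congr rfl fun β _ => ?_
          rw [Finset.sum_eq_single (cvt n hs1 β.1)]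
          · rw [if_pos rfl, cl_cvt]
          · intro γ _ hγ
            rw [if_neg (Ne.symm hγ), zero_mul]
          · intro h
            exact absurd (Finset.mem_image_of_mem _ β.2) h
        rw [h8, Finset.mul_sum, Finset.mul_sum]
        refine Finset.sum_congr rfl fun β _ => ?_
        ring
      rw [h7] at h5
      exact (mul_eq_zero.1 h5).resolve_left (inv_ne_zero h6))
  rw [Finset.card_image_of_injective _ (fun k k' h => hQ (pr_inj h)), Finset.card_univ,
    Fintype.card_fin] at h4
  omega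

end

/-- primes from an infinite class -/
lemma exists_fam {S : Set ℕ} (hS : S.Infinite) (N R : ℕ) :
    ∃ Q : Fin (R + 1) → ℕ, Function.Injective Q ∧ ∀ k, Q k ∈ S ∧ N ≤ Q k := by
  have h1 : (S \ {q | q < N}).Infinite := hS.sdiff (Set.finite_lt_nat N)
  refine ⟨fun k => (Set.Infinite.natEmbedding _ h1 k : ℕ), fun k k' h => ?_, fun k => ?_⟩
  · have h2 := (Set.Infinite.natEmbedding _ h1).injective (Subtype.ext h)
    exact Fin.ext h2
  · have h2 := (Set.Infinite.natEmbedding _ h1 k).2
    refine ⟨h2.1, ?_⟩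
    have h3 := h2.2
    simp only [Set.mem_ofPred_eq, not_lt] at h3
    exact h3

section

variable {L : ℕ → ℝ} {hL : Tendsto L atTop atTop} {F : IntermediateField ℚ ℝ}
  {s : ℕ → I → ℕ} {x : I → ℝ} {B : I → Bool}

open Classical in
/-- **the heads** -/
lemma headsT (hF : FiniteDimensional ℚ F) (hs : Lim s x L) (hx : ∀ i, x i = 0 ∨ 1 ≤ x i)
    (hB : ∀ i, B i = true ↔ 1 ≤ x i) (hs1 : ∀ n i, 1 ≤ s n i)
    (hLs : ∀ᶠ n in (UU : Filter ℕ), ∀ i, B i = true → L n ≤ (s n i : ℝ))
    (hinj : ∀ n, Function.Injective (s n))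
    {T A : Type} [Fintype T] [Fintype A] (f : T → ℕ → ℝ) (hf1 : ∀ τ m, |f τ m| ≤ 1)
    (hfF : ∀ τ m, f τ m ∈ F) (g : A → T → ℕ → ℝ)
    (hcls : ∀ a, {q : ℕ | ∀ τ m, f τ (pr q * m) = g a τ m}.Infinite)
    (h : T → A → ℝ) (hinv : ∀ τ τ', ∑ a, h τ a * g a τ' 1 = if τ' = τ then 1 else 0)
    {W : Type} [Fintype W] (w : W → I) (hw1 : ∀ v, B (w v) = true) (u : W → List I) (θ : W → T)
    (c : W → HR) (hc : ∀ v, c v ∈ SF hL F) (c0 : HR) (hc0 : c0 ∈ SF hL F)
    (hn : Nul L (∑ v, c v * XT s (f (θ v)) (w v) (u v) + c0)) {y : ℝ} (hy : 1 ≤ y)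
    (hw : ∀ v, c v ≠ 0 → y ≤ x (w v)) {i : I} (hi : x i = y) (τ0 : T) (β : List I) :
    Nul L (∑ v ∈ Finset.univ.filter (fun v => w v = i ∧ θ v = τ0), c v * Xb s B (u v) β) := by
  set Λ : Finset (List I) := Finset.univ.biUnion fun v =>
    ((sp B (u v)).map Prod.fst).toFinset with hΛ
  have hΛm : ∀ v, ∀ p ∈ sp B (u v), p.1 ∈ Λ := by
    intro v p hp
    rw [hΛ, Finset.mem_biUnion]
    refine ⟨v, Finset.mem_univ _, ?_⟩
    rw [List.mem_toFinset, List.mem_map]
    exact ⟨p, hp, rfl⟩
  have hΛs : ∀ β ∈ Λ, ∀ a ∈ β, x a = 0 := by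
    intro β hβ a ha
    rw [hΛ, Finset.mem_biUnion] at hβ
    obtain ⟨v, _, hv⟩ := hβ
    rw [List.mem_toFinset, List.mem_map] at hv
    obtain ⟨p, hp, rfl⟩ := hv
    have h1 := sp_small B _ p hp a ha
    refine (hx a).resolve_right fun h2 => ?_
    rw [(hB a).2 h2] at h1
    exact absurd h1 (by decide)
  set Y : I → T → List I → HR := fun i τ β =>
    ∑ v ∈ Finset.univ.filter (fun v => w v = i ∧ θ v = τ), c v * Xb s B (u v) β with hY
  by_cases hβ : β ∈ Λ
  swap
  · have h1 : ∀ v, Xb s B (u v) β = 0 := by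
      intro v
      unfold Xb
      refine List.sum_eq_zero fun z hz => ?_
      obtain ⟨p, hp, rfl⟩ := List.mem_map.1 hz
      rw [if_neg]
      intro h
      exact hβ (h ▸ hΛm v p hp)
    intro t
    have h2 : ∑ v ∈ Finset.univ.filter (fun v => w v = i ∧ θ v = τ0),
        c v * Xb s B (u v) β = 0 :=
      Finset.sum_eq_zero fun v _ => by rw [h1, mul_zero]
    rw [h2]
    exact SR_zero t
  -- bounds for the coefficients
  choose cc hcc hcc' using fun v => SF_bdd (hc v)
  set K : ℝ := ∑ v, cc v with hK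
  have hcK : ∀ v, c v ∈ SR L (-K) := fun v =>
    SR_anti hL (neg_le_neg (Finset.single_le_sum (f := cc) (fun v _ => hcc v)
      (Finset.mem_univ v))) (hcc' v)
  obtain ⟨m1, hm1⟩ := SF_common hc
  obtain ⟨m2, hm2⟩ := SF_common (J := Unit) (fun _ => hc0)
  set m0 : ℕ := m1 + m2 with hm0def
  have hm0 : ∀ m', m0 ≤ m' → ∀ v, NQ hL F m' m' (c v) := fun m' h => hm1 m' (by omega)
  have hm00 : ∀ m', m0 ≤ m' → NQ hL F m' m' c0 := fun m' h => hm2 m' (by omega) ()
  have hU : ∀ q (i : {i // x i = y}), ug s q i.1 / ch1 hL q (-y) ∈ KK L hL := by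
    intro q i
    have h1 := ug_const hL hs q i.1
    rwa [i.2] at h1
  have hlog2 : 0 < Real.log 2 := Real.log_pos (by norm_num)
  obtain ⟨R, hR⟩ := ker_trivT (hL := hL) hs1 hinj y Λ
  -- the step
  have hstep : ∀ t : ℝ, (∀ j : {i // x i = y} × Λ, ∀ τ, Y j.1.1 τ j.2.1 ∈ SR L t) →
      ∀ j : {i // x i = y} × Λ, ∀ τ, Y j.1.1 τ j.2.1 ∈ SR L (t + Real.log 2) := by
    intro t ht
    -- the classes
    have hZ : ∀ a : A, ∀ j : {i // x i = y} × Λ,
        ∑ τ, algebraMap ℝ HR (g a τ 1) * Y j.1.1 τ j.2.1 ∈ SR L (t + Real.log 2) := by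
      intro a
      obtain ⟨q0, hq0⟩ := exists_nat_ge (Real.exp (Real.log 2 + K + t))
      obtain ⟨Q, hQinj, hQ⟩ := exists_fam (hcls a) (q0 + m0) R
      refine inv_SR hL (fun (k : Fin (R + 1)) (j : {i // x i = y} × Λ) =>
        (ug s (Q k) j.1.1 / ch1 hL (Q k) (-y)) *
          Gq s j.2.1 (pr (Q k))) (fun k j => (KK L hL).mul_mem (hU _ _)
            (Gq_KK hs _ (hΛs _ j.2.2) _)) (hR Q hQinj)
        (y := fun j => ∑ τ, algebraMap ℝ HR (g a τ 1) * Y j.1.1 τ j.2.1) (fun k => ?_)
      obtain ⟨hqa, hqN⟩ := hQ k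
      set q : ℕ := Q k with hq
      have hqa' : ∀ τ m, f τ (pr q * m) = g a τ m := hqa
      have hp := pr_prime q
      have hp0 : 0 < pr q := hp.pos
      have hp2 : 2 ≤ pr q := hp.two_le
      have hpr : (0 : ℝ) < pr q := by exact_mod_cast hp0
      have hlog : 0 < Real.log (pr q) := Real.log_pos (by exact_mod_cast hp.one_lt)
      set N : ℕ := (pr q) ^ (⌈y⌉₊) with hN
      have hy1 : 1 ≤ ⌈y⌉₊ := Nat.one_le_ceil_iff.2 (by linarith only [hy])
      have hN2 : 2 ≤ N := hp2.trans (Nat.le_self_pow (by omega) _)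
      have h1 := trunc_sumT hL hLs (f := fun v => f (θ v)) (fun v m => hf1 _ m) hw1 u hcK hn
        (k := pr q * N) (Nat.mul_pos hp0 (by omega))
      have h2 := lead_sumT hF hs hx (fun v => f (θ v)) (fun v m => hfF _ m) w u c c0 hm0 hm00 hcK hy hw
        (q := q) (by omega) (N := N) (by omega)
        (SR_anti hL (by
          have h3 : Real.log ((pr q * N : ℕ) : ℝ) = (1 + (⌈y⌉₊ : ℝ)) * Real.log (pr q) := by
            rw [hN]
            push_cast
            rw [Real.log_mul hpr.ne' (pow_pos hpr _).ne', Real.log_pow]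
            ring
          rw [h3]
          have h4 := Nat.le_ceil y
          nlinarith only [h4, hlog]) h1)
      have hlogp : Real.log 2 + K + t ≤ Real.log (pr q) := by
        rw [Real.le_log_iff_exp_le hpr]
        refine hq0.trans ?_
        have := pr_ge q
        exact_mod_cast (by omega : q0 ≤ pr q)
      have hUS : ∀ i : {i // x i = y}, rho (ug s q i.1 / ch1 hL q (-y)) ∈ SR L 0 := fun i =>
        SR_KA hL ⊤ ⟨_, rho_mem_KA hL ⊤ ⟨_, hU q i⟩⟩
      have hGS : ∀ (β : Λ) (m : ℕ), rho (Gq s β.1 m) ∈ SR L 0 := fun β m => SR_Gq hL hs hx β.1 m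
      -- the expansions
      have h3 : ∑ i ∈ Finset.univ.filter (fun i => x i = y), rho (ug s q i / ch1 hL q (-y)) *
          ∑ m ∈ Finset.Ico 1 N, rho (lg s i m) *
            ∑ β : Λ, rho (Gq s β.1 (pr q * m)) * ∑ τ, algebraMap ℝ HR (g a τ m) * Y i τ β ∈
          SR L (Real.log (pr q) - K) := by
        have h4 : ∑ i ∈ Finset.univ.filter (fun i => x i = y), rho (ug s q i / ch1 hL q (-y)) *
            ∑ v ∈ Finset.univ.filter (fun v => w v = i), c v *
              ∑ m ∈ Finset.Ico 1 N, algebraMap ℝ HR (g a (θ v) m) *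
                (rho (lg s i m) * Rg s B (u v) (pr q * m)) ∈
            SR L (Real.log (pr q) - K) := by
          refine SR_sum hL _ _ fun i hi => ?_
          rw [Finset.mem_filter] at hi
          have h5 : ∑ v ∈ Finset.univ.filter (fun v => w v = i), c v *
              ∑ m ∈ Finset.Ico 1 N, algebraMap ℝ HR (g a (θ v) m) *
                (rho (lg s i m) * Rg s B (u v) (pr q * m)) ∈
              SR L (Real.log (pr q) - K) := by
            refine SR_sum hL _ _ fun v _ => ?_
            have h6 : ∑ m ∈ Finset.Ico 1 N, algebraMap ℝ HR (g a (θ v) m) *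
                (rho (lg s i m) * Rg s B (u v) (pr q * m)) ∈
                SR L (Real.log (pr q)) := by
              refine SR_sum hL _ _ fun m hm => SR_cmul hL _ ?_
              rw [Finset.mem_Ico] at hm
              have h7 := SR_mul hL (SR_lg_zero hL hs hx i hm.1)
                (SR_Rg hL hLs (u v) (k := pr q * m) (Nat.mul_pos hp0 hm.1))
              refine SR_anti hL ?_ h7
              rw [zero_add]
              refine Real.log_le_log hpr ?_
              exact_mod_cast Nat.le_mul_of_pos_right _ hm.1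
            have h7 := SR_mul hL (hcK v) h6
            refine SR_anti hL (le_of_eq ?_) h7
            ring
          have h6 := SR_mul hL (hUS ⟨i, hi.2⟩) h5
          rwa [zero_add] at h6
        have h5 := SR_sub hL h2 h4
        refine (congrArg (fun z => z ∈ SR L (Real.log (pr q) - K)) ?_).mp h5
        rw [← Finset.sum_sub_distrib]
        refine Finset.sum_congr rfl fun i _ => ?_
        rw [← mul_sub]
        congr 1
        rw [← Finset.sum_sub_distrib]
        have e1 : ∀ v, c v * ∑ m ∈ Finset.Ico 1 N, algebraMap ℝ HR (f (θ v) (pr q * m)) *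
              rho (lg s i m * Gq s (u v) (pr q * m)) -
            c v * ∑ m ∈ Finset.Ico 1 N, algebraMap ℝ HR (g a (θ v) m) *
              (rho (lg s i m) * Rg s B (u v) (pr q * m)) =
            ∑ m ∈ Finset.Ico 1 N, rho (lg s i m) *
              ∑ β : Λ, rho (Gq s β.1 (pr q * m)) *
                (algebraMap ℝ HR (g a (θ v) m) * (c v * Xb s B (u v) β)) := by
          intro v
          rw [← mul_sub, ← Finset.sum_sub_distrib, Finset.mul_sum]
          refine Finset.sum_congr rfl fun m hm => ?_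
          rw [Finset.mem_Ico] at hm
          rw [hqa', map_mul, Gq_expand hL hLs (u v) (k := pr q * m) (Nat.mul_pos hp0 hm.1),
            Xb_sum s B Λ (sp B (u v)) (hΛm v) (fun β => rho (Gq s β (pr q * m)))]
          rw [mul_add (rho (lg s i m)), mul_add (algebraMap ℝ HR (g a (θ v) m)),
            add_sub_cancel_right]
          simp only [Finset.mul_sum]
          refine Finset.sum_congr rfl fun β _ => ?_
          have e2 : Xb s B (u v) β.1 =
            (List.map (fun p => if p.1 = β.1 then Xg s B p.2 else 0) (sp B (u v))).sum := rfl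
          rw [e2]
          ring
        rw [Finset.sum_congr rfl fun v _ => e1 v, Finset.sum_comm]
        refine Finset.sum_congr rfl fun m _ => ?_
        rw [← Finset.mul_sum]
        congr 1
        rw [Finset.sum_comm]
        refine Finset.sum_congr rfl fun β _ => ?_
        rw [← Finset.mul_sum]
        congr 1
        -- sorting by the twist
        have e3 : ∀ τ, algebraMap ℝ HR (g a τ m) * Y i τ β.1 =
            ∑ v ∈ Finset.univ.filter (fun v => w v = i), if θ v = τ then
              algebraMap ℝ HR (g a (θ v) m) * (c v * Xb s B (u v) β.1) else 0 := by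
          intro τ
          rw [hY]
          simp only
          rw [← Finset.filter_filter, Finset.sum_filter, Finset.mul_sum]
          refine Finset.sum_congr rfl fun v _ => ?_
          split_ifs with h6
          · rw [h6]
          · rw [mul_zero]
        rw [Finset.sum_congr rfl fun τ _ => e3 τ, Finset.sum_comm]
        refine Finset.sum_congr rfl fun v _ => ?_
        rw [Finset.sum_ite_eq Finset.univ (θ v), if_pos (Finset.mem_univ _)]
      -- the first term
      have hYt : ∀ (i : {i // x i = y}) (β : Λ) (m : ℕ),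
          ∑ τ, algebraMap ℝ HR (g a τ m) * Y i.1 τ β ∈ SR L t := fun i β m =>
        SR_sum hL _ _ fun τ _ => SR_cmul hL _ (ht (i, β) τ)
      have h5 : ∑ i ∈ Finset.univ.filter (fun i => x i = y), rho (ug s q i / ch1 hL q (-y)) *
          ∑ β : Λ, rho (Gq s β.1 (pr q)) * ∑ τ, algebraMap ℝ HR (g a τ 1) * Y i τ β ∈
          SR L (t + Real.log 2) := by
        have h6 : ∑ i ∈ Finset.univ.filter (fun i => x i = y), rho (ug s q i / ch1 hL q (-y)) *
            ∑ m ∈ Finset.Ico 2 N, rho (lg s i m) *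
              ∑ β : Λ, rho (Gq s β.1 (pr q * m)) *
                ∑ τ, algebraMap ℝ HR (g a τ m) * Y i τ β ∈ SR L (t + Real.log 2) := by
          refine SR_sum hL _ _ fun i hi => ?_
          rw [Finset.mem_filter] at hi
          have h7 : ∑ m ∈ Finset.Ico 2 N, rho (lg s i m) *
              ∑ β : Λ, rho (Gq s β.1 (pr q * m)) *
                ∑ τ, algebraMap ℝ HR (g a τ m) * Y i τ β ∈ SR L (t + Real.log 2) := by
            refine SR_sum hL _ _ fun m hm => ?_
            rw [Finset.mem_Ico] at hm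
            have h8 : ∑ β : Λ, rho (Gq s β.1 (pr q * m)) *
                ∑ τ, algebraMap ℝ HR (g a τ m) * Y i τ β ∈ SR L t := by
              refine SR_sum hL _ _ fun β _ => ?_
              have h9 := SR_mul hL (hGS β (pr q * m)) (hYt ⟨i, hi.2⟩ β m)
              rwa [zero_add] at h9
            have h9 := SR_mul hL (SR_lg hL hs i (m := m) (by omega)) h8
            refine SR_anti hL ?_ h9
            show t + Real.log 2 ≤ x i * Real.log m + t
            have h10 : Real.log 2 ≤ Real.log m :=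
              Real.log_le_log (by norm_num) (by exact_mod_cast hm.1)
            have h11 : (1 : ℝ) ≤ x i := by rw [hi.2]; exact hy
            nlinarith only [h10, h11, hlog2]
          have h8 := SR_mul hL (hUS ⟨i, hi.2⟩) h7
          rwa [zero_add] at h8
        have h7 := SR_sub hL (SR_anti hL (show t + Real.log 2 ≤ Real.log (pr q) - K by
          linarith only [hlogp]) h3) h6
        refine (congrArg (fun z => z ∈ SR L (t + Real.log 2)) ?_).mp h7
        rw [← Finset.sum_sub_distrib]
        refine Finset.sum_congr rfl fun i _ => ?_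
        rw [← mul_sub]
        congr 1
        rw [Finset.sum_eq_sum_Ico_succ_bot (by omega : 1 < N), add_sub_cancel_right, lg_one,
          map_one, one_mul, mul_one]
      refine (congrArg (fun z => z ∈ SR L (t + Real.log 2)) ?_).mp h5
      rw [Finset.sum_subtype (Finset.univ.filter (fun i => x i = y)) (p := fun i => x i = y)
          (fun i => by
            rw [Finset.mem_filter]; exact ⟨fun h => h.2, fun h => ⟨Finset.mem_univ _, h⟩⟩),
        Fintype.sum_prod_type]
      refine Finset.sum_congr rfl fun i _ => ?_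
      rw [Finset.mul_sum]
      refine Finset.sum_congr rfl fun β _ => ?_
      rw [map_mul, mul_assoc]
    -- inversion
    intro j τ
    have h1 : Y j.1.1 τ j.2.1 = ∑ a, algebraMap ℝ HR (h τ a) *
        ∑ τ', algebraMap ℝ HR (g a τ' 1) * Y j.1.1 τ' j.2.1 := by
      simp only [Finset.mul_sum]
      rw [Finset.sum_comm]
      have e1 : ∀ τ', ∑ a, algebraMap ℝ HR (h τ a) *
          (algebraMap ℝ HR (g a τ' 1) * Y j.1.1 τ' j.2.1) =
          if τ' = τ then Y j.1.1 τ' j.2.1 else 0 := by
        intro τ'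
        have e2 : ∑ a, algebraMap ℝ HR (h τ a) *
            (algebraMap ℝ HR (g a τ' 1) * Y j.1.1 τ' j.2.1) =
            algebraMap ℝ HR (∑ a, h τ a * g a τ' 1) * Y j.1.1 τ' j.2.1 := by
          rw [map_sum, Finset.sum_mul]
          refine Finset.sum_congr rfl fun a _ => ?_
          rw [map_mul, mul_assoc]
        rw [e2, hinv]
        split_ifs
        · rw [map_one, one_mul]
        · rw [map_zero, zero_mul]
      rw [Finset.sum_congr rfl fun τ' _ => e1 τ', Finset.sum_ite_eq' Finset.univ τ,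
        if_pos (Finset.mem_univ _)]
    rw [h1]
    exact SR_sum hL _ _ fun a _ => SR_cmul hL _ (hZ a j)
  -- the start
  have hstart : ∀ j : {i // x i = y} × Λ, ∀ τ, Y j.1.1 τ j.2.1 ∈ SR L (-K) := by
    intro j τ
    rw [hY]
    refine SR_sum hL _ _ fun v _ => ?_
    have h1 : Xb s B (u v) j.2.1 ∈ SR L 0 := by
      unfold Xb
      have h2 : ∀ l : List (List I × List I),
          (l.map fun p => if p.1 = j.2.1 then Xg s B p.2 else 0).sum ∈ SR L 0 := by
        intro l
        induction l with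
        | nil =>
          rw [List.map_nil, List.sum_nil]
          exact SR_zero _
        | cons p l ih =>
          rw [List.map_cons, List.sum_cons]
          refine SR_add hL ?_ ih
          split_ifs
          · exact SR_Xg hL hLs _
          · exact SR_zero _
      exact h2 _
    have h2 := SR_mul hL (hcK v) h1
    rwa [add_zero] at h2
  have hall : ∀ (e : ℕ) (j : {i // x i = y} × Λ) (τ : T),
      Y j.1.1 τ j.2.1 ∈ SR L (-K + e * Real.log 2) := by
    intro e
    induction e with
    | zero =>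
      intro j τ
      rw [Nat.cast_zero, zero_mul, add_zero]
      exact hstart j τ
    | succ e ih =>
      intro j τ
      have h1 := hstep _ ih j τ
      refine SR_anti hL (le_of_eq ?_) h1
      push_cast
      ring
  intro t
  obtain ⟨e, he⟩ := exists_nat_ge ((t + K) / Real.log 2)
  rw [div_le_iff₀ hlog2] at he
  exact SR_anti hL (by linarith only [he]) (hall e (⟨i, hi⟩, ⟨β, hβ⟩) τ0)

end

end Pool.Agent.Y760.ZF.TW
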