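import Pool.Agent.K1H90.TW.Hh
import Pool.Agent.Y760.ZF.IndF

/-!
# Twisted multiple zeta values with large first arguments are linearly independent
-/

set_option autoImplicit false

namespace Pool.Agent.Y760.ZF.TW

open Filter Topology Pool.Agent.TH932.Abs Pool.Agent.TH932.Germs Pool.Agent.TH932.Chi
open Pool.Agent.TH796.AL Pool.Agent.Y760.ZG

variable {I : Type} [Fintype I] [DecidableEq I]

section

variable {L : ℕ → ℝ} {hL : Tendsto L atTop atTop} {F : IntermediateField ℚ ℝ}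
  {s : ℕ → I → ℕ} {x : I → ℝ} {B : I → Bool}

/-- **twisted multiple zeta values with large first arguments are linearly independent** -/
theorem indT (hF : FiniteDimensional ℚ F) (hs : Lim s x L) (hx : ∀ i, x i = 0 ∨ 1 ≤ x i)
    (hB : ∀ i, B i = true ↔ 1 ≤ x i) (hs1 : ∀ n i, 1 ≤ s n i)
    (hLs : ∀ᶠ n in (UU : Filter ℕ), ∀ i, B i = true → L n ≤ (s n i : ℝ))
    (hinj : ∀ n, Function.Injective (s n))
    {T A : Type} [Fintype T] [Fintype A] (f : T → ℕ → ℝ) (hf1 : ∀ τ m, |f τ m| ≤ 1)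
    (hfF : ∀ τ m, f τ m ∈ F) (g : A → T → ℕ → ℝ)
    (hcls : ∀ a, {q : ℕ | ∀ τ m, f τ (pr q * m) = g a τ m}.Infinite)
    (h : T → A → ℝ) (hinv : ∀ τ τ', (∑ a, h τ a * g a τ' 1 = 1 ∧ τ' = τ) ∨
      (∑ a, h τ a * g a τ' 1 = 0 ∧ τ' ≠ τ))
    {W : Type} [Fintype W] (w : W → I) (hw1 : ∀ v, B (w v) = true) (u : W → List I) (θ : W → T)
    (hwi : Function.Injective fun v => (w v, u v, θ v))
    (c : W → HR) (hc : ∀ v, c v ∈ SF hL F) (c0 : HR) (hc0 : c0 ∈ SF hL F)
    (hn : Nul L (∑ v, c v * XT s (f (θ v)) (w v) (u v) + c0)) : (∀ v, c v = 0) ∧ c0 = 0 := by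
  classical
  suffices hcz : ∀ v, c v = 0 by
    refine ⟨hcz, SF_nul hF hc0 ?_⟩
    have e1 : ∑ v, c v * XT s (f (θ v)) (w v) (u v) + c0 = c0 := by
      rw [Finset.sum_eq_zero fun v _ => by rw [hcz, zero_mul], zero_add]
    rwa [e1] at hn
  by_contra hcon
  push Not at hcon
  obtain ⟨v2, hv2⟩ := hcon
  obtain ⟨v3, hv3, hmin⟩ := Finset.exists_min_image
    (Finset.univ.filter fun v => c v ≠ 0) (fun v => x (w v))
    ⟨v2, Finset.mem_filter.2 ⟨Finset.mem_univ _, hv2⟩⟩
  rw [Finset.mem_filter] at hv3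
  have hw' : ∀ v, c v ≠ 0 → x (w v3) ≤ x (w v) := fun v hv =>
    hmin v (Finset.mem_filter.2 ⟨Finset.mem_univ _, hv⟩)
  have hheads := fun β => headsT hF hs hx hB hs1 hLs hinj f hf1 hfF g hcls h (fun τ τ' => by
    rcases hinv τ τ' with ⟨h1, h2⟩ | ⟨h1, h2⟩
    · rw [h1, if_pos h2]
    · rw [h1, if_neg h2]) w hw1 u θ c hc c0 hc0 hn ((hB (w v3)).1 (hw1 v3)) hw' rfl (θ v3) β
  obtain ⟨v4, hv4, hmax⟩ := Finset.exists_max_image
    (Finset.univ.filter fun v => c v ≠ 0 ∧ (w v = w v3 ∧ θ v = θ v3))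
    (fun v => (pre B (u v)).length)
    ⟨v3, Finset.mem_filter.2 ⟨Finset.mem_univ _, hv3.2, rfl, rfl⟩⟩
  rw [Finset.mem_filter] at hv4
  set β : List I := pre B (u v4) with hβ
  have h5 := indW hF hs hx hB hs1 hLs hinj (∑ v, (u v).length)
    {v // c v ≠ 0 ∧ (w v = w v3 ∧ θ v = θ v3) ∧ pre B (u v) = β}
    (fun v => rst B (u v)) (fun v v' hvv => by
      apply Subtype.ext
      apply hwi
      have h6 : u v.1 = u v'.1 := by
        rw [pre_rst B (u v.1), pre_rst B (u v'.1), v.2.2.2, v'.2.2.2]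
        congr 1
      simp only [Prod.mk.injEq]
      exact ⟨v.2.2.1.1.trans v'.2.2.1.1.symm, h6, v.2.2.1.2.trans v'.2.2.1.2.symm⟩)
    (fun v => Lg_rst B _) (fun v => (rst_length B (u v)).trans
      (Finset.single_le_sum (f := fun v => (u v).length) (fun _ _ => Nat.zero_le _)
        (Finset.mem_univ v.1))) (fun v => c v) (fun v => hc v) (by
      refine (congrArg (Nul L) ?_).mp (hheads β)
      have e1 : ∀ v ∈ Finset.univ.filter (fun v => w v = w v3 ∧ θ v = θ v3),
          c v * Xb s B (u v) β = if c v ≠ 0 ∧ (w v = w v3 ∧ θ v = θ v3) ∧ pre B (u v) = β then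
            c v * Xg s B (rst B (u v)) else 0 := by
        intro v hv
        rw [Finset.mem_filter] at hv
        by_cases hcv : c v = 0
        · rw [hcv, zero_mul, if_neg]
          intro h
          exact h.1 rfl
        · have h9 := hmax v (Finset.mem_filter.2 ⟨Finset.mem_univ _, hcv, hv.2⟩)
          rw [Xb_pre s B (u v) β h9]
          by_cases h10 : pre B (u v) = β
          · rw [if_pos h10, if_pos ⟨hcv, hv.2, h10⟩]
          · rw [if_neg h10, if_neg (fun h => h10 h.2.2), mul_zero]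
      rw [Finset.sum_congr rfl e1, ← Finset.sum_filter, Finset.filter_filter]
      refine Finset.sum_subtype _ (fun v => ?_) (fun v => c v * Xg s B (rst B (u v)))
      rw [Finset.mem_filter]
      constructor
      · intro h
        exact h.2.2
      · intro h
        exact ⟨Finset.mem_univ _, h.2.1, h⟩) ⟨v4, hv4.2.1, hv4.2.2, rfl⟩
  exact hv4.2.1 h5

end

end Pool.Agent.Y760.ZF.TW
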