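import Pool.Agent.K1H90.TW.Pt
import Pool.Agent.Y760.ZF.Mz

/-!
# Multiple zeta values with a twist of the outermost variable as germs
-/

set_option autoImplicit false

namespace Pool.Agent.Y760.ZF.TW

open Filter Topology Pool.Agent.TH932.Abs Pool.Agent.TH932.Germs Pool.Agent.TH932.Chi
open Pool.Agent.TH796.AL Pool.Agent.Y760.ZG

section

variable {I : Type} [Fintype I] [DecidableEq I] (s : ℕ → I → ℕ)

/-- the terms of the twisted series -/
noncomputable def tm (f : ℕ → ℝ) (n : ℕ) (i : I) (u : List I) (m : ℕ) : ℝ :=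
  f m * (hr (aw s n u) m / (m : ℝ) ^ (s n i))

omit [Fintype I] [DecidableEq I] in
lemma tm_bd {f : ℕ → ℝ} (hf : ∀ m, |f m| ≤ 1) (n : ℕ) (i : I) (u : List I) {σ : ℕ}
    (hs : σ ≤ s n i) : ∀ m : ℕ, 1 ≤ m →
    |tm s f n i u m| ≤ 1 * (m : ℝ) ^ (2 * u.length) * ((m : ℝ) ^ σ)⁻¹ := by
  intro m hm
  have hm1 : (1 : ℝ) ≤ m := by exact_mod_cast hm
  have h2 := hr_le (aw s n u) m hm
  rw [aw_length] at h2
  unfold tm
  rw [abs_mul, abs_of_nonneg (div_nonneg (hr_nonneg _ _) (by positivity)), one_mul]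
  refine (mul_le_of_le_one_left (div_nonneg (hr_nonneg _ _) (by positivity)) (hf m)).trans ?_
  rw [div_eq_mul_inv]
  exact mul_le_mul (h2.trans (pow_le_pow_right₀ hm1 (by omega)))
    (inv_anti₀ (by positivity) (pow_le_pow_right₀ hm1 hs)) (by positivity)
    (by positivity)

/-- the value -/
noncomputable def XTt (f : ℕ → ℝ) (n : ℕ) (i : I) (u : List I) : ℝ := tl (tm s f n i u) 1

/-- the value as a germ -/
noncomputable def XT (f : ℕ → ℝ) (i : I) (u : List I) : HR := gr fun n => XTt s f n i u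

/-- the tail as a germ -/
noncomputable def RT (f : ℕ → ℝ) (i : I) (u : List I) (k : ℕ) : HR :=
  gr fun n => tl (tm s f n i u) k

lemma GT_gr (f : ℕ → ℝ) (i : I) (u : List I) (k : ℕ) :
    GT s f i u k = gr fun n => ∑ m ∈ Finset.Ico 1 k, tm s f n i u m := by
  unfold GT
  rw [← gr_sum]
  refine Finset.sum_congr rfl fun m _ => ?_
  rw [map_mul, rho_Gq, cst_eq]
  unfold lg
  rw [rho_gm, gr_mul, gr_mul]
  congr 1
  funext n
  unfold tm
  push_cast
  rw [div_eq_inv_mul]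

variable {s} {B : I → Bool} {L : ℕ → ℝ} (hL : Tendsto L atTop atTop)
  (hLs : ∀ᶠ n in (UU : Filter ℕ), ∀ i, B i = true → L n ≤ (s n i : ℝ))
include hL hLs

lemma GT_eq {f : ℕ → ℝ} (hf : ∀ m, |f m| ≤ 1) {i : I} (hi : B i = true) (u : List I) {k : ℕ}
    (hk : 1 ≤ k) : GT s f i u k = XT s f i u - RT s f i u k := by
  rw [GT_gr]
  unfold XT RT
  rw [gr_sub, gr_eq]
  filter_upwards [ev_sig hL hLs (u.length + 1)] with n hn
  exact tail_split (tail_sum (C := 1) (A := 2 * u.length) (σ := ⌈L n⌉₊) zero_le_one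
    (by omega) (tm_bd s hf n i u (hn.2 i hi)) le_rfl) hk

lemma SR_RT {f : ℕ → ℝ} (hf : ∀ m, |f m| ≤ 1) {i : I} (hi : B i = true) (u : List I) {k : ℕ}
    (hk : 1 ≤ k) : RT s f i u k ∈ SR L (Real.log k) := by
  unfold RT
  rw [mem_SR]
  intro ε hε
  have h1 := SR_cst hL (1 * ze 2 * (k : ℝ) ^ (2 * u.length + 2))
  rw [cst_eq, mem_SR] at h1
  have hk1 : (1 : ℝ) ≤ k := by exact_mod_cast hk
  filter_upwards [h1 ε hε, ev_sig hL hLs (u.length + 1), L_nonneg hL] with n h2 h3 h4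
  have h5 := tail_bd (C := 1) (A := 2 * u.length) (σ := ⌈L n⌉₊) zero_le_one
    (by omega) (tm_bd s hf n i u (h3.2 i hi)) hk
  refine h5.trans ?_
  have h6 : ((k : ℝ) ^ ⌈L n⌉₊)⁻¹ ≤ Real.exp (-(Real.log k) * L n) := by
    rw [show ((k : ℝ) ^ ⌈L n⌉₊)⁻¹ = Real.exp (-(Real.log k) * (⌈L n⌉₊ : ℝ)) by
      rw [neg_mul, Real.exp_neg, mul_comm (Real.log k), Real.exp_nat_mul,
        Real.exp_log (by linarith only [hk1])]]
    apply Real.exp_le_exp.2
    have h7 := Nat.le_ceil (L n)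
    have h8 := Real.log_nonneg hk1
    nlinarith only [h7, h8]
  have h7 := (le_abs_self _).trans h2
  calc 1 * ze 2 * (k : ℝ) ^ (2 * u.length + 2) * ((k : ℝ) ^ ⌈L n⌉₊)⁻¹ ≤
      Real.exp (-(0 - ε) * L n) * Real.exp (-(Real.log k) * L n) :=
        mul_le_mul h7 h6 (by positivity) (by positivity)
    _ = Real.exp (-(Real.log k - ε) * L n) := by
      rw [← Real.exp_add]
      congr 1
      ring

lemma DD_XT {F : IntermediateField ℚ ℝ} {x : I → ℝ} (hs : Lim s x L) {f : ℕ → ℝ}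
    (hf : ∀ m, |f m| ≤ 1) (hfF : ∀ m, f m ∈ F) {i : I} (hi : B i = true) (u : List I) :
    DD hL F (XT s f i u) := by
  intro E
  obtain ⟨k, hk⟩ := exists_nat_ge (Real.exp E)
  have hk0 : (0 : ℝ) < k := lt_of_lt_of_le (Real.exp_pos E) hk
  have hk1 : 1 ≤ k := by
    have : 0 < k := by exact_mod_cast hk0
    omega
  refine ⟨GT s f i u k, SF_GT hs hfF i u k, ?_⟩
  rw [GT_eq hL hLs hf hi u hk1, sub_sub_cancel]
  refine SR_anti hL ?_ (SR_RT hL hLs hf hi u hk1)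
  rw [Real.le_log_iff_exp_le hk0]
  exact hk

lemma trunc_sumT {W : Type} [Fintype W] {f : W → ℕ → ℝ} (hf : ∀ v m, |f v m| ≤ 1) {w : W → I}
    (hw : ∀ v, B (w v) = true) (u : W → List I)
    {c : W → HR} {c0 : HR} {K : ℝ} (hK : ∀ v, c v ∈ SR L (-K))
    (hn : Nul L (∑ v, c v * XT s (f v) (w v) (u v) + c0))
    {k : ℕ} (hk : 1 ≤ k) :
    ∑ v, c v * GT s (f v) (w v) (u v) k + c0 ∈ SR L (Real.log k - K) := by
  have e1 : ∑ v, c v * GT s (f v) (w v) (u v) k + c0 =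
      ∑ v, c v * XT s (f v) (w v) (u v) + c0 - ∑ v, c v * RT s (f v) (w v) (u v) k := by
    rw [add_sub_right_comm, ← Finset.sum_sub_distrib]
    congr 1
    refine Finset.sum_congr rfl fun v _ => ?_
    rw [GT_eq hL hLs (hf v) (hw v) (u v) hk]
    ring
  rw [e1]
  refine SR_sub hL (hn _) (SR_sum hL _ _ fun v _ => ?_)
  have h1 := SR_mul hL (hK v) (SR_RT hL hLs (hf v) (hw v) (u v) hk)
  refine SR_anti hL (le_of_eq ?_) h1
  ring

end

end Pool.Agent.Y760.ZF.TW
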