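import Pool.Agent.K1H90.TW.FinV

/-!
# Twists by a root of unity whose order is not four
-/

set_option autoImplicit false

namespace Pool.Agent.Y760.ZF.TW

open Filter Topology Pool.Agent.Y760.ZG Pool.Agent.TH932.Chi Pool.Agent.TH932.Abs
open Pool.Agent.TH796.AL

/-- infinitely many primes in a residue class -/
lemma cls_inf {N a : ℕ} (hN : N ≠ 0) (ha : a.Coprime N) :
    {q : ℕ | pr q ≡ a [MOD N]}.Infinite := by
  intro hfin
  refine Nat.infinite_setOfPred_prime_and_modEq hN ha ((hfin.image pr).subset ?_)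
  rintro p ⟨hp, hpa⟩
  have h1 : pr (Nat.count Nat.Prime p) = p := Nat.nth_count hp
  exact ⟨Nat.count Nat.Prime p, by rw [Set.mem_ofPred, h1]; exact hpa, h1⟩

/-- the sum with the outermost variable twisted by the powers of `z` -/
noncomputable def liC (z : ℂ) (k : ℕ) (u : List ℕ) : ℂ :=
  ∑' m : ℕ, z ^ (m + 1) / ((m + 1 : ℕ) : ℂ) ^ k * ((hr u (m + 1) : ℝ) : ℂ)

lemma li_term (z : ℂ) (k : ℕ) (u : List ℕ) (m : ℕ) :
    z ^ (m + 1) / ((m + 1 : ℕ) : ℂ) ^ k * ((hr u (m + 1) : ℝ) : ℂ) =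
      z ^ (m + 1) * ((hr u (m + 1) / ((m + 1 : ℕ) : ℝ) ^ k : ℝ) : ℂ) := by
  push_cast
  ring

lemma summable_li {z : ℂ} (hz : ‖z‖ = 1) (u : List ℕ) {k : ℕ} (hk : 2 * u.length + 2 ≤ k) :
    Summable fun m : ℕ => z ^ (m + 1) / ((m + 1 : ℕ) : ℂ) ^ k * ((hr u (m + 1) : ℝ) : ℂ) := by
  have h1 : Summable fun m : ℕ => hr u (m + 1) / ((m + 1 : ℕ) : ℝ) ^ k := by
    refine tail_sum (f := fun m => hr u m / (m : ℝ) ^ k) (C := 1) (A := 2 * u.length) (σ := k)
      zero_le_one hk (fun m hm => ?_) le_rfl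
    have hm1 : (1 : ℝ) ≤ m := by exact_mod_cast hm
    have h2 := hr_le u m hm
    rw [abs_of_nonneg (div_nonneg (hr_nonneg _ _) (by positivity)), one_mul, div_eq_mul_inv]
    exact mul_le_mul_of_nonneg_right (h2.trans (pow_le_pow_right₀ hm1 (by omega))) (by positivity)
  refine Summable.of_norm_bounded h1 fun m => ?_
  rw [li_term, norm_mul, norm_pow, hz, one_pow, one_mul, Complex.norm_real, Real.norm_eq_abs,
    abs_of_nonneg (div_nonneg (hr_nonneg _ _) (by positivity))]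

lemma li_re {z : ℂ} (hz : ‖z‖ = 1) (u : List ℕ) {k : ℕ} (hk : 2 * u.length + 2 ≤ k) :
    (liC z k u).re = TX (fun m => (z ^ m).re) k u := by
  unfold liC TX tl
  rw [Complex.re_tsum (summable_li hz u hk)]
  refine tsum_congr fun m => ?_
  rw [li_term, Complex.re_mul_ofReal]

lemma li_im {z : ℂ} (hz : ‖z‖ = 1) (u : List ℕ) {k : ℕ} (hk : 2 * u.length + 2 ≤ k) :
    (liC z k u).im = TX (fun m => (z ^ m).im) k u := by
  unfold liC TX tl
  rw [Complex.im_tsum (summable_li hz u hk)]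
  refine tsum_congr fun m => ?_
  rw [li_term, Complex.im_mul_ofReal]

/-! ### Roots of unity -/

lemma z_norm {N : ℕ} (hN : 0 < N) {z : ℂ} (hz : z ^ N = 1) : ‖z‖ = 1 :=
  Complex.norm_eq_one_of_pow_eq_one hz hN.ne'

lemma z_pow_of_one {N : ℕ} {z : ℂ} (hz : z ^ N = 1) {q : ℕ} (hq : q ≡ 1 [MOD N])
    (m : ℕ) : z ^ (q * m) = z ^ m := by
  have h1 : z ^ q = z := by
    have h2 := pow_eq_pow_of_modEq hq hz
    rwa [pow_one] at h2
  rw [pow_mul, h1]

lemma z_pow_of_neg {N : ℕ} (hN : 0 < N) {z : ℂ} (hz : z ^ N = 1) {q : ℕ}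
    (hq : q ≡ N - 1 [MOD N]) (m : ℕ) : z ^ (q * m) = (starRingEnd ℂ) (z ^ m) := by
  have h1 : z ^ q = (starRingEnd ℂ) z := by
    have h2 := pow_eq_pow_of_modEq hq hz
    have h0 : z ≠ 0 := by
      intro h
      have := z_norm hN hz
      rw [h, norm_zero] at this
      exact zero_ne_one this
    have h5 : z * (starRingEnd ℂ) z = 1 := by
      rw [Complex.mul_conj, Complex.normSq_eq_norm_sq, z_norm hN hz]
      norm_num
    have h6 : z * z ^ (N - 1) = 1 := by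
      rw [← pow_succ', Nat.sub_add_cancel hN, hz]
    rw [h2]
    exact mul_left_cancel₀ h0 (h6.trans h5.symm)
  rw [pow_mul, h1, map_pow]

/-- the two twists -/
noncomputable def fz (z : ℂ) (τ : Bool) (m : ℕ) : ℝ := bif τ then (z ^ m).re else (z ^ m).im

/-- the two twists on the two classes -/
noncomputable def gz (z : ℂ) (a τ : Bool) (m : ℕ) : ℝ :=
  bif a then fz z τ m else (bif τ then fz z τ m else -fz z τ m)

lemma fz_mem (z : ℂ) (m : ℕ) :
    fz z true m ∈ IntermediateField.adjoin ℚ ({z.re, z.im} : Set ℝ) ∧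
    fz z false m ∈ IntermediateField.adjoin ℚ ({z.re, z.im} : Set ℝ) := by
  set F := IntermediateField.adjoin ℚ ({z.re, z.im} : Set ℝ) with hF
  have h1 : z.re ∈ F := IntermediateField.subset_adjoin ℚ _ (Set.mem_insert _ _)
  have h2 : z.im ∈ F := IntermediateField.subset_adjoin ℚ _ (Set.mem_insert_of_mem _ rfl)
  induction m with
  | zero =>
    unfold fz
    simp only [pow_zero, Complex.one_re, Complex.one_im, cond_true, cond_false]
    exact ⟨F.one_mem, F.zero_mem⟩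
  | succ m ih =>
    unfold fz at ih ⊢
    simp only [cond_true, cond_false] at ih ⊢
    rw [pow_succ, Complex.mul_re, Complex.mul_im]
    exact ⟨F.sub_mem (F.mul_mem ih.1 h1) (F.mul_mem ih.2 h2),
      F.add_mem (F.mul_mem ih.1 h2) (F.mul_mem ih.2 h1)⟩

lemma fz_abs {z : ℂ} (hz : ‖z‖ = 1) (τ : Bool) (m : ℕ) : |fz z τ m| ≤ 1 := by
  have h1 : ‖z ^ m‖ = 1 := by rw [norm_pow, hz, one_pow]
  cases τ
  · show |(z ^ m).im| ≤ 1
    rw [← h1]
    exact Complex.abs_im_le_norm _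
  · show |(z ^ m).re| ≤ 1
    rw [← h1]
    exact Complex.abs_re_le_norm _

lemma gz_cls {N : ℕ} (hN : 0 < N) {z : ℂ} (hz : z ^ N = 1) (a : Bool) :
    {q : ℕ | ∀ τ m, fz z τ (pr q * m) = gz z a τ m}.Infinite := by
  cases a
  · have hcop : (N - 1).Coprime N := by
      rw [Nat.coprime_comm]
      exact (Nat.coprime_self_sub_right hN).2 (Nat.coprime_one_right N)
    refine (cls_inf (N := N) (a := N - 1) hN.ne' hcop).mono fun q hq τ m => ?_
    have h1 := z_pow_of_neg hN hz hq m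
    cases τ
    · show (z ^ (pr q * m)).im = -(z ^ m).im
      rw [h1, Complex.conj_im]
    · show (z ^ (pr q * m)).re = (z ^ m).re
      rw [h1, Complex.conj_re]
  · refine (cls_inf (N := N) (a := 1) hN.ne' (Nat.coprime_one_left N)).mono fun q hq τ m => ?_
    show fz z τ (pr q * m) = fz z τ m
    unfold fz
    rw [z_pow_of_one hz hq m]

/-- the inverse matrix -/
noncomputable def hz' (z : ℂ) (τ a : Bool) : ℝ :=
  bif τ then 1 / (2 * z.re) else (bif a then 1 / (2 * z.im) else -(1 / (2 * z.im)))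

lemma hz_inv {z : ℂ} (hr0 : z.re ≠ 0) (hi0 : z.im ≠ 0) (τ τ' : Bool) :
    (∑ a, hz' z τ a * gz z a τ' 1 = 1 ∧ τ' = τ) ∨
    (∑ a, hz' z τ a * gz z a τ' 1 = 0 ∧ τ' ≠ τ) := by
  have hre : fz z true 1 = z.re := by
    show (z ^ 1).re = _
    rw [pow_one]
  have him : fz z false 1 = z.im := by
    show (z ^ 1).im = _
    rw [pow_one]
  rw [Fintype.sum_bool]
  cases τ <;> cases τ'
  · left
    refine ⟨?_, rfl⟩
    show 1 / (2 * z.im) * fz z false 1 + -(1 / (2 * z.im)) * -fz z false 1 = 1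
    rw [him]
    field_simp
    ring
  · right
    refine ⟨?_, by decide⟩
    show 1 / (2 * z.im) * fz z true 1 + -(1 / (2 * z.im)) * fz z true 1 = 0
    ring
  · right
    refine ⟨?_, by decide⟩
    show 1 / (2 * z.re) * fz z false 1 + 1 / (2 * z.re) * -fz z false 1 = 0
    ring
  · left
    refine ⟨?_, rfl⟩
    show 1 / (2 * z.re) * fz z true 1 + 1 / (2 * z.re) * fz z true 1 = 1
    rw [hre]
    field_simp
    ring

lemma alg_re {z : ℂ} (hz : IsAlgebraic ℚ z) : IsAlgebraic ℚ z.re := by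
  have h1 : IsAlgebraic ℚ ((starRingEnd ℂ) z) :=
    hz.algHom ((Complex.conjAe.toAlgHom).restrictScalars ℚ)
  have h2 : IsAlgebraic ℚ ((z.re : ℝ) : ℂ) := by
    have h3 : ((z.re : ℝ) : ℂ) = (z + (starRingEnd ℂ) z) * algebraMap ℚ ℂ (1 / 2) := by
      rw [Complex.add_conj]
      push_cast
      simp only [map_ofNat]
      ring
    rw [h3]
    exact (hz.add h1).mul (isAlgebraic_algebraMap _)
  exact (isAlgebraic_algebraMap_iff (A := ℂ) (algebraMap ℝ ℂ).injective).1 h2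

lemma alg_im {z : ℂ} (hz : IsAlgebraic ℚ z) : IsAlgebraic ℚ z.im := by
  have hI : IsAlgebraic ℚ Complex.I := by
    refine ⟨Polynomial.X ^ 2 + 1, ?_, ?_⟩
    · exact (Polynomial.monic_X_pow_add_C (1 : ℚ) (n := 2) (by norm_num)).ne_zero
    · simp
  have h1 : z.im = (z * -Complex.I).re := by simp
  rw [h1]
  exact alg_re (hz.mul hI.neg)

/-- the coefficients -/
noncomputable def bo (θ : ℂ) (τ : Bool) : ℝ := bif τ then θ.re else -θ.im

lemma bo_alg {θ : ℂ} (hθ : IsAlgebraic ℚ θ) (τ : Bool) : IsAlgebraic ℚ (bo θ τ) := by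
  cases τ
  · exact (alg_im hθ).neg
  · exact alg_re hθ

lemma bo_li {l : ℕ} {θ : Fin l → ℂ} {z : ℂ}
    (hθ : LinearIndependent ℚ fun j (m : ℕ) => (θ j * z ^ m).re) :
    LinearIndependent ℚ fun j => bo (θ j) := by
  rw [Fintype.linearIndependent_iff] at hθ ⊢
  intro c hc
  refine hθ c ?_
  have h1 := congrFun hc true
  have h2 := congrFun hc false
  rw [Finset.sum_apply, Pi.zero_apply] at h1 h2
  have h3 : ∑ j, (c j : ℝ) * (θ j).re = 0 := by
    rw [← h1]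
    refine Finset.sum_congr rfl fun j _ => ?_
    rw [Pi.smul_apply, Rat.smul_def]
    rfl
  have h4 : ∑ j, (c j : ℝ) * (-(θ j).im) = 0 := by
    rw [← h2]
    refine Finset.sum_congr rfl fun j _ => ?_
    rw [Pi.smul_apply, Rat.smul_def]
    rfl
  funext m
  rw [Finset.sum_apply, Pi.zero_apply]
  have h5 : ∑ j, (c j : ℝ) * (θ j * z ^ m).re = (∑ j, (c j : ℝ) * (θ j).re) * (z ^ m).re +
      (∑ j, (c j : ℝ) * (-(θ j).im)) * (z ^ m).im := by
    rw [Finset.sum_mul, Finset.sum_mul, ← Finset.sum_add_distrib]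
    refine Finset.sum_congr rfl fun j _ => ?_
    rw [Complex.mul_re]
    ring
  rw [h3, h4, zero_mul, zero_mul, add_zero] at h5
  rw [← h5]
  refine Finset.sum_congr rfl fun j _ => ?_
  rw [Pi.smul_apply, Rat.smul_def]

/-- **the general case** -/
theorem mainRt1 {l l' N0 : ℕ} (hN0 : 0 < N0) {z : ℂ} (hz : z ^ N0 = 1) (hr0 : z.re ≠ 0)
    (hi0 : z.im ≠ 0) (θ : Fin l → ℂ) (hθ : ∀ j, IsAlgebraic ℚ (θ j))
    (hθi : LinearIndependent ℚ fun j (m : ℕ) => (θ j * z ^ m).re)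
    (β : Fin l' → ℝ) (hβ : ∀ j, IsAlgebraic ℚ (β j))
    (hβi : LinearIndependent ℚ β) (N r : ℕ) (κ C : ℝ) :
    ∃ B : ℝ, 1 < B ∧ ∃ n0 : ℕ, ∀ n : ℕ, n0 ≤ n → ∀ W : Finset (ℕ × List ℕ), W.card ≤ N →
      (∀ w ∈ W, Ad n r κ w) → ∀ (a : ℕ × List ℕ → Fin l → ℤ) (a' : Fin l' → ℤ),
      ((∃ w ∈ W, ∃ j, a w j ≠ 0) ∨ ∃ j, a' j ≠ 0) → (∀ w ∈ W, ∀ j, |(a w j : ℝ)| ≤ C ^ n) →
      (∀ j, |(a' j : ℝ)| ≤ C ^ n) →
      (B ^ n)⁻¹ < |∑ w ∈ W, ∑ j, (a w j : ℝ) * (θ j * liC z w.1 w.2).re +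
        ∑ j, (a' j : ℝ) * β j| := by
  have hnz := z_norm hN0 hz
  have hza : IsAlgebraic ℚ z := by
    refine ⟨Polynomial.X ^ N0 - Polynomial.C 1, ?_, ?_⟩
    · exact (Polynomial.monic_X_pow_sub_C (1 : ℚ) hN0.ne').ne_zero
    · simp [hz]
  obtain ⟨B, hB, n0, h1⟩ := mainTW (fz z) (fz_abs hnz) {z.re, z.im} (Set.toFinite _) (by
      intro x hx
      rcases hx with rfl | rfl
      · exact alg_re hza
      · exact alg_im hza) (by
      intro τ m
      cases τ
      · exact (fz_mem z m).2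
      · exact (fz_mem z m).1) (gz z) (gz_cls hN0 hz) (hz' z) (hz_inv hr0 hi0)
    (fun j => bo (θ j)) (fun j τ => bo_alg (hθ j) τ) (bo_li hθi) β hβ hβi N r κ C
  refine ⟨B, hB, n0 + (2 * r + 2), fun n hn W hWN hW a a' hne hC hC' => ?_⟩
  refine (h1 n (by omega) W hWN hW a a' hne hC hC').trans_le (le_of_eq ?_)
  congr 2
  refine Finset.sum_congr rfl fun w hw => Finset.sum_congr rfl fun j _ => ?_
  congr 1
  have h2 := hW w hw
  have h3 : 2 * w.2.length + 2 ≤ w.1 := by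
    have h4 := h2.1
    have h5 := h2.2.1
    omega
  rw [Fintype.sum_bool, Complex.mul_re, li_re hnz w.2 h3, li_im hnz w.2 h3]
  show (θ j).re * TX (fz z true) w.1 w.2 + -(θ j).im * TX (fz z false) w.1 w.2 = _
  rw [neg_mul, ← sub_eq_add_neg]
  rfl

/-- **real roots of unity** -/
theorem mainRt2 {l l' : ℕ} {z : ℂ} (hz : z ^ 2 = 1)
    (θ : Fin l → ℂ) (hθ : ∀ j, IsAlgebraic ℚ (θ j))
    (hθi : LinearIndependent ℚ fun j (m : ℕ) => (θ j * z ^ m).re)
    (β : Fin l' → ℝ) (hβ : ∀ j, IsAlgebraic ℚ (β j))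
    (hβi : LinearIndependent ℚ β) (N r : ℕ) (κ C : ℝ) :
    ∃ B : ℝ, 1 < B ∧ ∃ n0 : ℕ, ∀ n : ℕ, n0 ≤ n → ∀ W : Finset (ℕ × List ℕ), W.card ≤ N →
      (∀ w ∈ W, Ad n r κ w) → ∀ (a : ℕ × List ℕ → Fin l → ℤ) (a' : Fin l' → ℤ),
      ((∃ w ∈ W, ∃ j, a w j ≠ 0) ∨ ∃ j, a' j ≠ 0) → (∀ w ∈ W, ∀ j, |(a w j : ℝ)| ≤ C ^ n) →
      (∀ j, |(a' j : ℝ)| ≤ C ^ n) →
      (B ^ n)⁻¹ < |∑ w ∈ W, ∑ j, (a w j : ℝ) * (θ j * liC z w.1 w.2).re +
        ∑ j, (a' j : ℝ) * β j| := by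
  have hnz := z_norm (by norm_num) hz
  have him : ∀ m : ℕ, (z ^ m).im = 0 := by
    have h1 : z = 1 ∨ z = -1 := sq_eq_one_iff.1 hz
    intro m
    rcases h1 with h | h
    · rw [h, one_pow, Complex.one_im]
    · rw [h]
      rcases neg_one_pow_eq_or ℂ m with h2 | h2
      · rw [h2, Complex.one_im]
      · rw [h2, Complex.neg_im, Complex.one_im, neg_zero]
  have hre : (z ^ 1).re * (z ^ 1).re = 1 := by
    have h1 : (z ^ 2).re = 1 := by rw [hz, Complex.one_re]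
    rw [pow_two, Complex.mul_re] at h1
    have h2 := him 1
    rw [pow_one] at h2
    rw [h2, mul_zero, sub_zero] at h1
    rw [pow_one]
    exact h1
  obtain ⟨B, hB, n0, h1⟩ := mainTW (T := Unit) (A := Unit) (fun _ m => (z ^ m).re)
    (fun _ m => fz_abs hnz true m) {z.re, z.im} (Set.toFinite _)
    (by
      have hza : IsAlgebraic ℚ z := by
        refine ⟨Polynomial.X ^ 2 - Polynomial.C 1, ?_, ?_⟩
        · exact (Polynomial.monic_X_pow_sub_C (1 : ℚ) (n := 2) (by norm_num)).ne_zero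
        · simp [hz]
      intro x hx
      rcases hx with rfl | rfl
      · exact alg_re hza
      · exact alg_im hza)
    (fun _ m => (fz_mem z m).1)
    (fun _ _ m => (z ^ m).re) (fun _ => by
      refine (cls_inf (N := 2) (a := 1) (by norm_num) (by norm_num)).mono fun q hq τ m => ?_
      show (z ^ (pr q * m)).re = (z ^ m).re
      rw [z_pow_of_one hz hq m]) (fun _ _ => (z ^ 1).re) (fun _ _ => Or.inl ⟨by
        rw [Fintype.sum_unique]
        exact hre, rfl⟩)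
    (fun j _ => (θ j).re) (fun j _ => alg_re (hθ j)) (by
      rw [Fintype.linearIndependent_iff] at hθi ⊢
      intro c hc
      refine hθi c ?_
      have h2 := congrFun hc ()
      rw [Finset.sum_apply, Pi.zero_apply] at h2
      funext m
      rw [Finset.sum_apply, Pi.zero_apply]
      have h3 : ∀ j, (c j • fun m : ℕ => (θ j * z ^ m).re) m =
          (c j • fun _ : Unit => (θ j).re) () * (z ^ m).re := by
        intro j
        rw [Pi.smul_apply, Pi.smul_apply, Rat.smul_def, Rat.smul_def, Complex.mul_re, him,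
          mul_zero, sub_zero, mul_assoc]
      rw [Finset.sum_congr rfl fun j _ => h3 j, ← Finset.sum_mul, h2, zero_mul])
    β hβ hβi N r κ C
  refine ⟨B, hB, n0 + (2 * r + 2), fun n hn W hWN hW a a' hne hC hC' => ?_⟩
  refine (h1 n (by omega) W hWN hW a a' hne hC hC').trans_le (le_of_eq ?_)
  congr 2
  refine Finset.sum_congr rfl fun w hw => Finset.sum_congr rfl fun j _ => ?_
  congr 1
  have h2 := hW w hw
  have h3 : 2 * w.2.length + 2 ≤ w.1 := by
    have h4 := h2.1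
    have h5 := h2.2.1
    omega
  have h4 : (liC z w.1 w.2).im = 0 := by
    rw [li_im hnz w.2 h3]
    unfold TX tl
    simp only [him, zero_mul, tsum_zero]
  rw [Fintype.sum_unique, Complex.mul_re, h4, mul_zero, sub_zero, li_re hnz w.2 h3]

/-- **roots of unity** -/
theorem mainRt {l l' N0 : ℕ} (hN0 : 0 < N0) {z : ℂ} (hz : z ^ N0 = 1)
    (h4 : z ^ 2 = 1 ∨ z ^ 4 ≠ 1)
    (θ : Fin l → ℂ) (hθ : ∀ j, IsAlgebraic ℚ (θ j))
    (hθi : LinearIndependent ℚ fun j (m : ℕ) => (θ j * z ^ m).re)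
    (β : Fin l' → ℝ) (hβ : ∀ j, IsAlgebraic ℚ (β j))
    (hβi : LinearIndependent ℚ β) (N r : ℕ) (κ C : ℝ) :
    ∃ B : ℝ, 1 < B ∧ ∃ n0 : ℕ, ∀ n : ℕ, n0 ≤ n → ∀ W : Finset (ℕ × List ℕ), W.card ≤ N →
      (∀ w ∈ W, Ad n r κ w) → ∀ (a : ℕ × List ℕ → Fin l → ℤ) (a' : Fin l' → ℤ),
      ((∃ w ∈ W, ∃ j, a w j ≠ 0) ∨ ∃ j, a' j ≠ 0) → (∀ w ∈ W, ∀ j, |(a w j : ℝ)| ≤ C ^ n) →
      (∀ j, |(a' j : ℝ)| ≤ C ^ n) →
      (B ^ n)⁻¹ < |∑ w ∈ W, ∑ j, (a w j : ℝ) * (θ j * liC z w.1 w.2).re +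
        ∑ j, (a' j : ℝ) * β j| := by
  by_cases h2 : z ^ 2 = 1
  · exact mainRt2 h2 θ hθ hθi β hβ hβi N r κ C
  · have h4' := h4.resolve_left h2
    have hnz := z_norm hN0 hz
    have hsq : z.re * z.re + z.im * z.im = 1 := by
      have h5 := Complex.normSq_eq_norm_sq z
      rw [hnz, Complex.normSq_apply] at h5
      rw [h5]
      norm_num
    refine mainRt1 hN0 hz ?_ ?_ θ hθ hθi β hβ hβi N r κ C
    · intro h0
      apply h4'
      have h5 : z ^ 2 = -1 := by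
        apply Complex.ext
        · rw [pow_two, Complex.mul_re, h0, Complex.neg_re, Complex.one_re]
          rw [h0] at hsq
          linarith only [hsq]
        · rw [pow_two, Complex.mul_im, h0, Complex.neg_im, Complex.one_im]
          ring
      rw [show (4 : ℕ) = 2 * 2 from rfl, pow_mul, h5]
      norm_num
    · intro h0
      apply h2
      apply Complex.ext
      · rw [pow_two, Complex.mul_re, h0, Complex.one_re]
        rw [h0] at hsq
        linarith only [hsq]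
      · rw [pow_two, Complex.mul_im, h0, Complex.one_im]
        ring

end Pool.Agent.Y760.ZF.TW
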