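import Pool.Agent.Y760.ZF.Pt

/-!
# Truncated multiple sums with a twist of the outermost variable: the parts at one prime
-/

set_option autoImplicit false

namespace Pool.Agent.Y760.ZF.TW

open Filter Topology Pool.Agent.TH932.Abs Pool.Agent.TH932.Germs Pool.Agent.TH932.Chi
open Pool.Agent.TH796.AL Pool.Agent.Y760.ZG

variable {I : Type} [Fintype I] [DecidableEq I] (s : ℕ → I → ℕ) (x : I → ℝ)

/-- truncated multiple sums with the twist `f` -/
noncomputable def GT (f : ℕ → ℝ) (i : I) (u : List I) (N : ℕ) : HR :=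
  ∑ m ∈ Finset.Ico 1 N, algebraMap ℝ HR (f m) * rho (lg s i m * Gq s u m)

/-- the part of the weight `z` at the prime `q` -/
noncomputable def GTz (q : ℕ) (f : ℕ → ℝ) (i : I) (u : List I) (N : ℕ) (z : ℝ) : HR :=
  ∑ m ∈ Finset.Ico 1 N, algebraMap ℝ HR (f m) *
    rho (lg s i m * Gz s x q u m (z - padicValNat (pr q) m * x i))

lemma GTz_notMem (q : ℕ) (f : ℕ → ℝ) (i : I) (u : List I) (N : ℕ) (z : ℝ)
    (hz : z ∉ Ys x q (i :: u) N) : GTz s x q f i u N z = 0 := by
  classical
  rw [Ys_cons] at hz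
  unfold GTz
  refine Finset.sum_eq_zero fun m hm => ?_
  rw [Gz_notMem s x q u m, mul_zero, map_zero, mul_zero]
  intro h
  exact hz (Finset.mem_biUnion.2 ⟨m, hm, Finset.mem_image.2 ⟨_, h, by ring⟩⟩)

lemma GTz_sum (q : ℕ) (f : ℕ → ℝ) (i : I) (u : List I) (N : ℕ) (Y : Finset ℝ)
    (hY : Ys x q (i :: u) N ⊆ Y) : ∑ z ∈ Y, GTz s x q f i u N z = GT s f i u N := by
  classical
  rw [Ys_cons] at hY
  unfold GTz GT
  rw [Finset.sum_comm]
  refine Finset.sum_congr rfl fun m hm => ?_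
  rw [← Finset.mul_sum, ← map_sum, ← Finset.mul_sum]
  congr 3
  rw [← Gz_sum s x q u m (Y.image fun z => z - padicValNat (pr q) m * x i) ?_, Finset.sum_image]
  · intro z _ z' _ h
    simpa using h
  · intro z hz
    refine Finset.mem_image.2 ⟨z + padicValNat (pr q) m * x i, ?_, by ring⟩
    exact hY (Finset.mem_biUnion.2 ⟨m, hm, Finset.mem_image.2 ⟨_, hz, rfl⟩⟩)

section

variable {s} {x}
variable {L : ℕ → ℝ} {hL : Tendsto L atTop atTop} {F : IntermediateField ℚ ℝ}

lemma NQ_cst {q M : ℕ} {a : ℝ} (ha : a ∈ F) : NQ hL F q M (algebraMap ℝ HR a) :=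
  NQ.coe ⟨_, cst_mem_KA hL F ⟨a, ha⟩⟩

lemma NQ_GTz (hs : Lim s x L) {q M : ℕ} (hq : q < M) {f : ℕ → ℝ} (hf : ∀ m, f m ∈ F) (i : I)
    (u : List I) (N : ℕ) (z : ℝ) (hN : N ≤ M + 1) :
    NQ hL F q M (GTz s x q f i u N z * rho (ch1 hL q (-z))⁻¹) := by
  classical
  unfold GTz
  rw [Finset.sum_mul]
  refine NQ.sum _ _ fun m hm => ?_
  rw [Finset.mem_Ico] at hm
  rw [mul_assoc, ← map_mul, ← div_eq_mul_inv]
  refine (NQ_cst (hf m)).mul ?_
  have h1 : ch1 hL q (-z) = ch1 hL q (-(padicValNat (pr q) m * x i)) *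
      ch1 hL q (-(z - padicValNat (pr q) m * x i)) := by
    rw [← ch1_add]
    congr 1
    ring
  rw [h1, mul_div_mul_comm, map_mul]
  exact (NQ_lg hs i hm.1 (by omega) hq).mul (NQ_Gz hs hq u m _ (by omega))

lemma SF_GT (hs : Lim s x L) {f : ℕ → ℝ} (hf : ∀ m, f m ∈ F) (i : I) (u : List I) (N : ℕ) :
    GT s f i u N ∈ SF hL F := by
  unfold GT
  refine (SF hL F).sum_mem fun m _ => (SF hL F).mul_mem
    (SF_of_NQ (q := 0) (m := 0) (NQ_cst (hf m))) ?_
  have h1 : Gq s (i :: u) (m + 1) = Gq s (i :: u) m + (if 1 ≤ m then lg s i m * Gq s u m else 0) := by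
    rw [Gq_cons, Gq_cons]
    by_cases hm : 1 ≤ m
    · rw [if_pos hm, Finset.sum_Ico_succ_top hm]
    · have : m = 0 := by omega
      subst this
      simp
  by_cases hm : 1 ≤ m
  · rw [if_pos hm] at h1
    have h2 : lg s i m * Gq s u m = Gq s (i :: u) (m + 1) - Gq s (i :: u) m := by
      rw [h1, add_sub_cancel_left]
    rw [h2, map_sub]
    exact (SF hL F).sub_mem (SF_Gq hs _ _) (SF_Gq hs _ _)
  · have : m = 0 := by omega
    subst this
    rename_i hm0
    rw [Finset.mem_Ico] at hm0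
    omega

/-- **the part of a small sum at one prime is small** -/
lemma partT (hF : FiniteDimensional ℚ F) (hs : Lim s x L) {W : Type} [Fintype W]
    (f : W → ℕ → ℝ) (hf : ∀ v m, f v m ∈ F) (w : W → I) (u : W → List I) (c : W → HR) (c0 : HR)
    {q M N : ℕ} (hq : q < M) (hN : N ≤ M + 1)
    (hc : ∀ v, NQ hL F q M (c v)) (hc0 : NQ hL F q M c0) {E : ℝ}
    (h : ∑ v, c v * GT s (f v) (w v) (u v) N + c0 ∈ SR L E) (z : ℝ) (hz0 : z ≠ 0) :
    ∑ v, c v * GTz s x q (f v) (w v) (u v) N z ∈ SR L E := by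
  classical
  set Y : Finset ℝ := insert 0 (Finset.univ.biUnion fun v => Ys x q (w v :: u v) N) with hY
  by_cases hz : z ∈ Y
  · set R : ℝ → HR := fun z => ∑ v, c v *
      (GTz s x q (f v) (w v) (u v) N z * rho (ch1 hL q (-z))⁻¹) + if z = 0 then c0 else 0 with hR
    have h1 : ∀ z, rho (ch1 hL q (-z)) * R z = ∑ v, c v * GTz s x q (f v) (w v) (u v) N z +
        if z = 0 then c0 else 0 := by
      intro z
      rw [hR]
      simp only
      rw [mul_add, Finset.mul_sum]
      congr 1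
      · refine Finset.sum_congr rfl fun v _ => ?_
        have h2 : rho (ch1 hL q (-z)) * rho (ch1 hL q (-z))⁻¹ = 1 := by
          rw [← map_mul, mul_inv_cancel₀ (ch1_ne hL q (-z)), map_one]
        calc rho (ch1 hL q (-z)) * (c v * (GTz s x q (f v) (w v) (u v) N z *
              rho (ch1 hL q (-z))⁻¹)) = c v * GTz s x q (f v) (w v) (u v) N z *
              (rho (ch1 hL q (-z)) * rho (ch1 hL q (-z))⁻¹) := by ring
          _ = _ := by rw [h2, mul_one]
      · split_ifs with h3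
        · rw [h3, neg_zero, ch1_zero, map_one, one_mul]
        · rw [mul_zero]
    have h2 : ∑ z ∈ Y, rho (ch (bs M) hL (Pi.single ⟨q, hq⟩ (-z))) * R z ∈ SR L E := by
      have e1 : ∑ z ∈ Y, rho (ch (bs M) hL (Pi.single ⟨q, hq⟩ (-z))) * R z =
          ∑ v, c v * GT s (f v) (w v) (u v) N + c0 := by
        have e2 : ∀ z ∈ Y, rho (ch (bs M) hL (Pi.single ⟨q, hq⟩ (-z))) * R z =
            ∑ v, c v * GTz s x q (f v) (w v) (u v) N z + if z = 0 then c0 else 0 := by
          intro z _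
          rw [ch1_eq, h1]
        rw [Finset.sum_congr rfl e2, Finset.sum_add_distrib, Finset.sum_comm,
          Finset.sum_ite_eq' Y 0, if_pos (Finset.mem_insert_self _ _)]
        congr 1
        refine Finset.sum_congr rfl fun v _ => ?_
        rw [← Finset.mul_sum, GTz_sum s x q (f v) (w v) (u v) N Y
          ((Finset.subset_biUnion_of_mem (fun v => Ys x q (w v :: u v) N)
            (Finset.mem_univ v)).trans (Finset.subset_insert _ _))]
      rw [e1]
      exact h
    have h3 := split hF hq Y R (fun z _ => (NQ.sum _ _ fun v _ => (hc v).mul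
      (NQ_GTz hs hq (hf v) (w v) (u v) N z hN)).add (by
        split_ifs
        · exact hc0
        · have h4 := NQ_cst (hL := hL) (q := q) (M := M) F.zero_mem
          rwa [map_zero] at h4)) h2 z hz
    have h4 := SR_mul hL (ch1_mem (hL := hL) q z) h3
    rw [h1, if_neg hz0, add_zero] at h4
    refine SR_anti hL (le_of_eq ?_) h4
    ring
  · have h1 : ∀ v, GTz s x q (f v) (w v) (u v) N z = 0 := fun v =>
      GTz_notMem s x q (f v) (w v) (u v) N z fun h2 =>
      hz (Finset.mem_insert_of_mem (Finset.mem_biUnion.2 ⟨v, Finset.mem_univ v, h2⟩))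
    simp only [h1, mul_zero, Finset.sum_const_zero]
    exact SR_zero _

end

end Pool.Agent.Y760.ZF.TW
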